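import Pool.Agent.Lib_helper64.SH.K1Comm
import Pool.Agent.Lib_helper55.WhK1c

/-!
The class system given by the group `K₁(R)` of `Pool.Wh`; consequences.
-/

namespace Pool.Agent.SH

open Matrix Pool.Wh

universe u

variable {R : Type u} [Ring R]

theorem clM_tv {ι : Type*} [Fintype ι] [DecidableEq ι] (i j : ι) (h : i ≠ j) (c : R)
    (M : (Matrix ι ι R)ˣ) (hM : M.val = 1 + Matrix.single i j c) : clM M = 1 := by
  have key : clM M = cl (LinearEquiv.refl R R) := by
    refine cl_sylvester (LinearMap.single R (fun _ : ι => R) j)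
      ((LinearMap.toSpanSingleton R R c) ∘ₗ LinearMap.proj i) (vmE M) _ ?_ ?_
    · intro v
      rw [vmE_apply, hM, Matrix.vecMul_add, Matrix.vecMul_one]
      congr 1
      ext a
      by_cases ha : a = j
      · subst ha
        simp [Matrix.vecMul, dotProduct, Matrix.single]
      · simp [Matrix.vecMul, dotProduct, Matrix.single, ha, Ne.symm ha]
    · intro y
      simp [Pi.single_eq_of_ne h]
  rw [key]
  exact cl_refl

/-- the class system given by `K₁(R)` -/
noncomputable def whSys (R : Type u) [Ring R] : ClassSys R (K1 R) where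
  cl := clM
  cl_tv i j h c := clM_tv i j h c _ rfl
  cl_stab A := by
    rw [clM_blocks (dsum A 1) A 1 0 rfl, map_one, mul_one]
  cl_reidx e A := by
    refine clM_reindex e A (reidx e A) ?_
    rfl

/-- the class of a unit, as a homomorphism -/
noncomputable def clUnit (R : Type u) [Ring R] : Rˣ →* K1 R := (whSys R).clU

theorem clUnit_apply (w : Rˣ) : clUnit R w = clM (ClassSys.diagU w) := rfl

/-- `K₁(R)/[Rˣ]` is torsion for commutative reduced `R` which is free of finite rank over `ℤ` -/
theorem K1_comm_torsion {R : Type u} [CommRing R] [IsReduced R] [Module.Free ℤ R]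
    [Module.Finite ℤ R] (x : K1 R) : ∃ k : ℕ, 0 < k ∧ ∃ w : Rˣ, x ^ k = clUnit R w := by
  obtain ⟨n, hn⟩ := exists_clM x
  obtain ⟨M, rfl⟩ := hn n le_rfl
  exact (whSys R).comm_torsion M

/-- if `R` is free of rank `≤ d` over `ℤ`, every class is represented by a `d × d` matrix -/
theorem K1_exists_rep [Module.Free ℤ R] [Module.Finite ℤ R] (d : ℕ)
    (hd : Module.finrank ℤ R ≤ d) (x : K1 R) :
    ∃ M : (Matrix (Fin d) (Fin d) R)ˣ, clM M = x := by
  obtain ⟨n, hn⟩ := exists_clM x
  obtain ⟨M, rfl⟩ := hn n le_rfl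
  exact (whSys R).exists_fin_rep d hd n (Fin n) (by simp) M

/-- the integral group ring of a finite commutative group is reduced -/
theorem isReduced_groupRing (C : Type*) [CommGroup C] [Finite C] :
    IsReduced (MonoidAlgebra ℤ C) := by
  have : NeZero (Nat.card C : ℚ) := ⟨by exact_mod_cast Nat.card_pos.ne'⟩
  have h1 : IsSemisimpleModule (MonoidAlgebra ℚ C) (MonoidAlgebra ℚ C) := inferInstance
  have : IsSemisimpleRing (MonoidAlgebra ℚ C) := h1
  let φ : MonoidAlgebra ℤ C →+* MonoidAlgebra ℚ C :=
    MonoidAlgebra.mapRingHom C (Int.castRingHom ℚ)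
  have hφ : Function.Injective φ := by
    intro x y hxy
    apply MonoidAlgebra.ext
    ext g
    have := congrArg (fun z : MonoidAlgebra ℚ C => z.coeff g) hxy
    simpa [φ, MonoidAlgebra.coeff_mapRingHom] using this
  exact isReduced_of_injective φ hφ

/-- `K₁(ℤC)/[units]` is torsion for finite commutative `C` -/
theorem K1_groupRing_comm_torsion (C : Type u) [CommGroup C] [Finite C]
    (x : K1 (MonoidAlgebra ℤ C)) :
    ∃ k : ℕ, 0 < k ∧ ∃ w : (MonoidAlgebra ℤ C)ˣ, x ^ k = clUnit _ w := by
  have := isReduced_groupRing C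
  exact K1_comm_torsion x

end Pool.Agent.SH
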