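import Pool.Agent.Lib_helper64.SH.Hermite
import Pool.Agent.Lib_helper64.SH.Wh

/-!
The stable Whitehead lemma: an invertible matrix has trivial class in `K₁(R)` if and only if it
is stably a product of transvections.
-/

namespace Pool.Agent.SH

open Pool.Wh

universe u

variable {R : Type u} [Ring R]

section elem

open Matrix

variable {ι κ : Type} [Fintype ι] [DecidableEq ι] [Fintype κ] [DecidableEq κ]

/-- stabilisation as a homomorphism -/
def dsumHom (ι κ : Type) [Fintype ι] [DecidableEq ι] [Fintype κ] [DecidableEq κ]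
    (R : Type u) [Ring R] : (Matrix ι ι R)ˣ →* (Matrix (ι ⊕ κ) (ι ⊕ κ) R)ˣ where
  toFun A := dsum A 1
  map_one' := by ext1; simp [dsum]
  map_mul' A B := by ext1; simp [dsum, fromBlocks_multiply]

theorem dsum_mem {A : (Matrix ι ι R)ˣ} (hA : A ∈ ElemG ι R) :
    dsum A (1 : (Matrix κ κ R)ˣ) ∈ ElemG (ι ⊕ κ) R := by
  have h : ElemG ι R ≤ (ElemG (ι ⊕ κ) R).comap (dsumHom ι κ R) := by
    rw [ElemG, Subgroup.closure_le]
    rintro _ ⟨i, j, h, c, rfl⟩
    change dsum (tv i j h c) 1 ∈ ElemG (ι ⊕ κ) R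
    have : dsum (tv i j h c) (1 : (Matrix κ κ R)ˣ) =
        tv (Sum.inl i) (Sum.inl j) (by simpa using h) c := by
      ext1
      ext a b
      rcases a with a | a <;> rcases b with b | b <;>
        simp [dsum, tv, Matrix.single, Matrix.one_apply]
    rw [this]
    exact tv_mem _ _ _ _
  exact h hA

theorem reidx_mem (e : ι ≃ κ) {A : (Matrix ι ι R)ˣ} (hA : A ∈ ElemG ι R) :
    reidx e A ∈ ElemG κ R := by
  have h : ElemG ι R ≤ (ElemG κ R).comap (reidx e) := by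
    rw [ElemG, Subgroup.closure_le]
    rintro _ ⟨i, j, h, c, rfl⟩
    change reidx e (tv i j h c) ∈ ElemG κ R
    have : reidx e (tv i j h c) = tv (e i) (e j) (by simpa using h) c := by
      ext1
      ext a b
      simp [reidx, tv, Matrix.single, Matrix.one_apply, Equiv.eq_symm_apply]
    rw [this]
    exact tv_mem _ _ _ _
  exact h hA

theorem reidx_reidx {μ : Type} [Fintype μ] [DecidableEq μ] (e : ι ≃ κ) (f : κ ≃ μ)
    (A : (Matrix ι ι R)ˣ) : reidx f (reidx e A) = reidx (e.trans f) A := by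
  ext1
  ext a b
  simp [reidx]

theorem reidx_refl (A : (Matrix ι ι R)ˣ) : reidx (Equiv.refl ι) A = A := by
  ext1
  ext a b
  simp [reidx]

theorem ub_mem (X : Matrix ι κ R) : ClassSys.ub X ∈ ElemG (ι ⊕ κ) R := by
  classical
  induction X using Matrix.induction_on' with
  | h_zero => 
    have : ClassSys.ub (0 : Matrix ι κ R) = 1 := by ext1; simp [ClassSys.ub]
    rw [this]; exact one_mem _
  | h_add p q hp hq => rw [ClassSys.ub_add]; exact mul_mem hp hq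
  | h_std_basis i j x =>
    have : ClassSys.ub (Matrix.single i j x) = tv (Sum.inl i) (Sum.inr j) (by simp) x := by
      ext1
      ext a b
      rcases a with a | a <;> rcases b with b | b <;>
        simp [ClassSys.ub, tv, Matrix.single, Matrix.one_apply]
    rw [this]; exact tv_mem _ _ _ _

theorem lb_mem (X : Matrix κ ι R) : ClassSys.lb X ∈ ElemG (ι ⊕ κ) R := by
  classical
  induction X using Matrix.induction_on' with
  | h_zero => 
    have : ClassSys.lb (0 : Matrix κ ι R) = 1 := by ext1; simp [ClassSys.lb]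
    rw [this]; exact one_mem _
  | h_add p q hp hq => rw [ClassSys.lb_add]; exact mul_mem hp hq
  | h_std_basis i j x =>
    have : ClassSys.lb (Matrix.single i j x) = tv (Sum.inr i) (Sum.inl j) (by simp) x := by
      ext1
      ext a b
      rcases a with a | a <;> rcases b with b | b <;>
        simp [ClassSys.lb, tv, Matrix.single, Matrix.one_apply]
    rw [this]; exact tv_mem _ _ _ _

theorem dsum_inv_mem (A : (Matrix ι ι R)ˣ) : dsum A A⁻¹ ∈ ElemG (ι ⊕ ι) R := by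
  have : dsum A A⁻¹ = (ClassSys.ub A.val * ClassSys.lb (-A⁻¹.val) * ClassSys.ub A.val) *
      (ClassSys.ub (-1) * ClassSys.lb 1 * ClassSys.ub (-1)) := by
    ext1
    simp [dsum, ClassSys.ub, ClassSys.lb, fromBlocks_multiply]
  rw [this]
  exact mul_mem (mul_mem (mul_mem (ub_mem _) (lb_mem _)) (ub_mem _))
    (mul_mem (mul_mem (ub_mem _) (lb_mem _)) (ub_mem _))

/-- Whitehead's lemma -/
theorem dsum_commutator_mem (A B : (Matrix ι ι R)ˣ) :
    dsum (A * B * A⁻¹ * B⁻¹) (1 : (Matrix ι ι R)ˣ) ∈ ElemG (ι ⊕ ι) R := by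
  have : dsum (A * B * A⁻¹ * B⁻¹) (1 : (Matrix ι ι R)ˣ) =
      dsum A A⁻¹ * dsum B B⁻¹ * dsum (A⁻¹ * B⁻¹) (A⁻¹ * B⁻¹)⁻¹ := by
    ext1
    simp only [dsum, Units.val_mul, fromBlocks_multiply, Units.val_one]
    congr 1
    · simp [Matrix.mul_assoc]
    · simp
    · simp
    · simp only [Matrix.mul_zero, Matrix.zero_mul, zero_add, add_zero]
      rw [← Units.val_mul, ← Units.val_mul]
      simp
  rw [this]
  exact mul_mem (mul_mem (dsum_inv_mem _) (dsum_inv_mem _)) (dsum_inv_mem _)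

end elem

section rep

open Finsupp

/-- `φ` is given by the `m × m` matrix `M` -/
def Rep (φ : St R) (m : ℕ) (M : (Matrix (Fin m) (Fin m) R)ˣ) : Prop :=
  (∀ i : Fin m, (φ : (ℕ →₀ R) ≃ₗ[R] (ℕ →₀ R)) (single (i : ℕ) 1) =
    ∑ j : Fin m, single (j : ℕ) (M.val i j)) ∧
  ∀ i ≥ m, (φ : (ℕ →₀ R) ≃ₗ[R] (ℕ →₀ R)) (single i 1) = single i 1

theorem Rep.mul {φ ψ : St R} {m : ℕ} {M N : (Matrix (Fin m) (Fin m) R)ˣ}
    (h : Rep φ m M) (h' : Rep ψ m N) : Rep (ψ * φ) m (M * N) := by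
  constructor
  · intro i
    change (ψ : (ℕ →₀ R) ≃ₗ[R] (ℕ →₀ R)) ((φ : (ℕ →₀ R) ≃ₗ[R] (ℕ →₀ R)) (single (i : ℕ) 1)) = _
    rw [h.1 i, map_sum]
    have e1 : ∀ j : Fin m, (ψ : (ℕ →₀ R) ≃ₗ[R] (ℕ →₀ R)) (single (j : ℕ) (M.val i j)) =
        ∑ k : Fin m, single (k : ℕ) (M.val i j * N.val j k) := by
      intro j
      have : (single (j : ℕ) (M.val i j) : ℕ →₀ R) = M.val i j • single (j : ℕ) 1 := by
        rw [smul_single, smul_eq_mul, mul_one]
      rw [this, map_smul, h'.1 j, Finset.smul_sum]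
      simp
    rw [Finset.sum_congr rfl fun j _ => e1 j, Finset.sum_comm]
    refine Finset.sum_congr rfl fun k _ => ?_
    rw [Units.val_mul, Matrix.mul_apply, Finsupp.single_finsetSum]
  · intro i hi
    change (ψ : (ℕ →₀ R) ≃ₗ[R] (ℕ →₀ R)) ((φ : (ℕ →₀ R) ≃ₗ[R] (ℕ →₀ R)) (single (i : ℕ) 1)) = _
    rw [h.2 i hi, h'.2 i hi]

theorem Rep.unique {φ : St R} {m : ℕ} {M N : (Matrix (Fin m) (Fin m) R)ˣ}
    (h : Rep φ m M) (h' : Rep φ m N) : M = N := by
  ext1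
  ext i j
  have := (h.1 i).symm.trans (h'.1 i)
  have := congrArg (fun v : ℕ →₀ R => v (j : ℕ)) this
  simpa [Finsupp.finsetSum_apply, single_apply, Fin.val_inj] using this

theorem Rep.ext {φ ψ : St R} {m : ℕ} {M : (Matrix (Fin m) (Fin m) R)ˣ}
    (h : Rep φ m M) (h' : Rep ψ m M) : φ = ψ := by
  apply Subtype.ext
  apply LinearEquiv.toLinearMap_injective
  apply Finsupp.lhom_ext'
  intro i
  apply LinearMap.ext_ring
  change (φ : (ℕ →₀ R) ≃ₗ[R] (ℕ →₀ R)) (single i 1) = (ψ : (ℕ →₀ R) ≃ₗ[R] (ℕ →₀ R)) (single i 1)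
  by_cases hi : i < m
  · rw [h.1 ⟨i, hi⟩, h'.1 ⟨i, hi⟩]
  · rw [h.2 i (not_lt.1 hi), h'.2 i (not_lt.1 hi)]

theorem Rep.one (m : ℕ) : Rep (1 : St R) m 1 := by
  constructor
  · intro i
    change (single (i : ℕ) (1 : R) : ℕ →₀ R) = _
    rw [Finset.sum_eq_single i]
    · simp
    · intro j _ hj
      simp [Matrix.one_apply_ne (Ne.symm hj)]
    · simp
  · intro i hi; rfl

theorem rep_push (m : ℕ) (M : (Matrix (Fin m) (Fin m) R)ˣ) :
    Rep ((FPair.std R (fun i : Fin m => (i : ℕ)) Fin.val_injective).push (vmE M)) m M := by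
  set p := FPair.std R (fun i : Fin m => (i : ℕ)) Fin.val_injective with hp
  constructor
  · intro i
    have hS : p.S (single (i : ℕ) 1) = Pi.single i 1 := by
      ext k
      rw [hp, FPair.std_S, single_apply, Pi.single_apply]
      simp [Fin.val_inj, eq_comm]
    have hE : p.E (Pi.single i 1) = single (i : ℕ) 1 := by
      rw [hp, FPair.std_E_single]
    rw [FPair.push_apply, hS, map_sub, hE, add_sub_cancel, vmE_apply, hp, FPair.std_E]
    refine Finset.sum_congr rfl fun j _ => ?_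
    congr 1
    simp [Matrix.vecMul, dotProduct, Pi.single_apply]
  · intro i hi
    have hS : p.S (single i 1) = 0 := by
      ext k
      rw [hp, FPair.std_S, single_apply, if_neg]
      · rfl
      · have := k.isLt; omega
    rw [FPair.push_apply, hS]
    simp

theorem clM_eq_of_rep {φ : St R} {m : ℕ} {M : (Matrix (Fin m) (Fin m) R)ˣ} (h : Rep φ m M) :
    clM M = Abelianization.of φ := by
  rw [clM_eq, cl_eq (FPair.std R (fun i : Fin m => (i : ℕ)) Fin.val_injective),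
    Rep.ext (rep_push m M) h]

theorem Rep.inv {φ : St R} {m : ℕ} {M : (Matrix (Fin m) (Fin m) R)ˣ}
    (h : Rep φ m M) : Rep φ⁻¹ m M⁻¹ := by
  have h1 := rep_push m M⁻¹
  set ψ := (FPair.std R (fun i : Fin m => (i : ℕ)) Fin.val_injective).push (vmE M⁻¹)
  have h2 : Rep (ψ * φ) m (M * M⁻¹) := h.mul h1
  rw [mul_inv_cancel] at h2
  have h3 : ψ * φ = 1 := Rep.ext h2 (Rep.one m)
  rw [← eq_inv_of_mul_eq_one_left h3]
  exact h1

/-- stabilisation -/
theorem Rep.stab {φ : St R} {m : ℕ} {M : (Matrix (Fin m) (Fin m) R)ˣ} (h : Rep φ m M)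
    (N : ℕ) (hN : m ≤ N) : ∃ e : Fin m ⊕ Fin (N - m) ≃ Fin N, Rep φ N (reidx e (dsum M 1)) := by
  let e : Fin m ⊕ Fin (N - m) ≃ Fin N := finSumFinEquiv.trans (finCongr (by omega))
  have he1 : ∀ i : Fin m, ((e (Sum.inl i) : Fin N) : ℕ) = i := fun i => rfl
  have he2 : ∀ i : Fin (N - m), ((e (Sum.inr i) : Fin N) : ℕ) = m + i := fun i => rfl
  refine ⟨e, ?_, ?_⟩
  · intro i
    obtain ⟨i', rfl⟩ := e.surjective i
    rw [← e.sum_comp, Fintype.sum_sum_type]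
    rcases i' with i' | i'
    · simp only [he1, he2]
      rw [h.1 i']
      simp [reidx, dsum]
    · simp only [he1, he2]
      rw [h.2 _ (by omega)]
      simp only [reidx, dsum, Units.coe_map, MonoidHom.coe_coe, Matrix.coe_reindexAlgEquiv,
        Matrix.reindex_apply, Matrix.submatrix_apply, Equiv.symm_apply_apply, Matrix.fromBlocks_apply₂₁,
        Matrix.zero_apply, single_zero, Finset.sum_const_zero, zero_add, Matrix.fromBlocks_apply₂₂,
        Units.val_one]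
      rw [Finset.sum_eq_single i']
      · simp
      · intro j _ hj
        simp [Matrix.one_apply_ne (Ne.symm hj)]
      · simp
  · intro i hi
    exact h.2 i (by omega)

/-- every finitary automorphism is given by a matrix of any large size -/
theorem exists_rep (φ : St R) : ∃ n : ℕ, ∀ m ≥ n, ∃ M : (Matrix (Fin m) (Fin m) R)ˣ,
    Rep φ m M := by
  obtain ⟨n, h1, h2⟩ := φ.2
  obtain ⟨n', h1', h2'⟩ := φ⁻¹.2
  have key : ∀ (ψ : St R) (n : ℕ), (∀ v, ∀ i ≥ n, ((((ψ : (ℕ →₀ R) ≃ₗ[R] (ℕ →₀ R)) :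
      (ℕ →₀ R) →ₗ[R] (ℕ →₀ R)) - LinearMap.id : (ℕ →₀ R) →ₗ[R] (ℕ →₀ R)) v) i = 0) → ∀ m ≥ n,
      ∀ i < m, (ψ : (ℕ →₀ R) ≃ₗ[R] (ℕ →₀ R)) (single i 1) =
        ∑ j : Fin m, single (j : ℕ) (((ψ : (ℕ →₀ R) ≃ₗ[R] (ℕ →₀ R)) (single i 1)) j) := by
    intro ψ n h m hm i hi
    ext k
    rw [Finsupp.finsetSum_apply]
    by_cases hk : k < m
    · rw [Finset.sum_eq_single (⟨k, hk⟩ : Fin m)]
      · simp
      · intro j _ hj
        rw [single_apply, if_neg]
        intro h0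
        exact hj (Fin.ext h0)
      · simp
    · have e1 := h (single i 1) k (by omega)
      simp only [LinearMap.sub_apply, LinearEquiv.coe_coe, LinearMap.id_apply,
        Finsupp.sub_apply] at e1
      rw [sub_eq_zero.1 e1, single_apply, if_neg (by omega)]
      symm
      refine Finset.sum_eq_zero fun j _ => ?_
      rw [single_apply, if_neg (by have := j.isLt; omega)]
  refine ⟨max n n', fun m hm => ?_⟩
  have hmn : n ≤ m := le_trans (le_max_left _ _) hm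
  have hmn' : n' ≤ m := le_trans (le_max_right _ _) hm
  let M : Matrix (Fin m) (Fin m) R := fun i j =>
    ((φ : (ℕ →₀ R) ≃ₗ[R] (ℕ →₀ R)) (single (i : ℕ) 1)) j
  let M' : Matrix (Fin m) (Fin m) R := fun i j =>
    ((φ⁻¹ : St R) : (ℕ →₀ R) ≃ₗ[R] (ℕ →₀ R)) (single (i : ℕ) 1) j
  have hM : ∀ i : Fin m, (φ : (ℕ →₀ R) ≃ₗ[R] (ℕ →₀ R)) (single (i : ℕ) 1) =
      ∑ j : Fin m, single (j : ℕ) (M i j) := fun i => key φ n h1 m hmn i i.isLt
  have hM' : ∀ i : Fin m, ((φ⁻¹ : St R) : (ℕ →₀ R) ≃ₗ[R] (ℕ →₀ R)) (single (i : ℕ) 1) =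
      ∑ j : Fin m, single (j : ℕ) (M' i j) := fun i => key φ⁻¹ n' h1' m hmn' i i.isLt
  have key2 : ∀ (φ ψ : St R) (A B : Matrix (Fin m) (Fin m) R), ψ * φ = 1 →
      (∀ i : Fin m, (φ : (ℕ →₀ R) ≃ₗ[R] (ℕ →₀ R)) (single (i : ℕ) 1) =
        ∑ j : Fin m, single (j : ℕ) (A i j)) →
      (∀ i : Fin m, (ψ : (ℕ →₀ R) ≃ₗ[R] (ℕ →₀ R)) (single (i : ℕ) 1) =
        ∑ j : Fin m, single (j : ℕ) (B i j)) → A * B = 1 := by
    intro φ ψ A B h hA hB
    ext i k
    have h3 : (ψ : (ℕ →₀ R) ≃ₗ[R] (ℕ →₀ R)) ((φ : (ℕ →₀ R) ≃ₗ[R] (ℕ →₀ R)) (single (i : ℕ) 1)) =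
        single (i : ℕ) 1 := by
      have : ((ψ * φ : St R) : (ℕ →₀ R) ≃ₗ[R] (ℕ →₀ R)) (single (i : ℕ) 1) = single (i : ℕ) 1 := by
        rw [h]; rfl
      exact this
    rw [hA, map_sum] at h3
    have e1 : ∀ j : Fin m, (ψ : (ℕ →₀ R) ≃ₗ[R] (ℕ →₀ R)) (single (j : ℕ) (A i j)) =
        ∑ k : Fin m, single (k : ℕ) (A i j * B j k) := by
      intro j
      have : (single (j : ℕ) (A i j) : ℕ →₀ R) = A i j • single (j : ℕ) 1 := by
        rw [smul_single, smul_eq_mul, mul_one]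
      rw [this, map_smul, hB j, Finset.smul_sum]
      simp
    rw [Finset.sum_congr rfl fun j _ => e1 j, Finset.sum_comm] at h3
    have h4 := congrArg (fun v : ℕ →₀ R => v (k : ℕ)) h3
    simp only [Finsupp.finsetSum_apply, single_apply, Fin.val_inj] at h4
    rw [Matrix.mul_apply, Matrix.one_apply, ← h4]
    simp [Finset.sum_comm (s := (Finset.univ : Finset (Fin m)))]
  refine ⟨⟨M, M', key2 φ φ⁻¹ M M' (by simp) hM hM', key2 φ⁻¹ φ M' M (by simp) hM' hM⟩, hM, ?_⟩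
  intro i hi
  have := h2 i (by omega)
  simpa [sub_eq_zero] using this

/-- the finitary automorphisms given by elementary matrices -/
def ElemSt (R : Type u) [Ring R] : Subgroup (St R) where
  carrier := {φ | ∃ (m : ℕ) (M : (Matrix (Fin m) (Fin m) R)ˣ), M ∈ ElemG (Fin m) R ∧ Rep φ m M}
  one_mem' := ⟨0, 1, one_mem _, Rep.one 0⟩
  mul_mem' := by
    rintro φ ψ ⟨m, M, hM, h⟩ ⟨n, N, hN, h'⟩
    obtain ⟨e, he⟩ := h.stab (max m n) (le_max_left _ _)
    obtain ⟨f, hf⟩ := h'.stab (max m n) (le_max_right _ _)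
    exact ⟨max m n, _, mul_mem (reidx_mem f (dsum_mem hN)) (reidx_mem e (dsum_mem hM)),
      hf.mul he⟩
  inv_mem' := by
    rintro φ ⟨m, M, hM, h⟩
    exact ⟨m, M⁻¹, inv_mem hM, h.inv⟩

theorem commutator_le_ElemSt : commutator (St R) ≤ ElemSt R := by
  rw [commutator_def, Subgroup.commutator_le]
  intro φ _ ψ _
  obtain ⟨n, hn⟩ := exists_rep φ
  obtain ⟨n', hn'⟩ := exists_rep ψ
  obtain ⟨m, hm, hm'⟩ : ∃ m, n ≤ m ∧ n' ≤ m := ⟨max n n', le_max_left _ _, le_max_right _ _⟩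
  obtain ⟨M, hM⟩ := hn m hm
  obtain ⟨N, hN⟩ := hn' m hm'
  have h1 : Rep (φ * ψ * φ⁻¹ * ψ⁻¹) m (N⁻¹ * (M⁻¹ * (N * M))) :=
    hN.inv.mul (hM.inv.mul (hN.mul hM))
  obtain ⟨e, he⟩ := h1.stab (m + m) (by omega)
  refine ⟨m + m, _, reidx_mem e ?_, he⟩
  have h2 := dsum_commutator_mem N⁻¹ M⁻¹
  simp only [inv_inv] at h2
  have h3 : N⁻¹ * (M⁻¹ * (N * M)) = N⁻¹ * M⁻¹ * N * M := by group
  rw [h3]
  have h4 : reidx ((Equiv.refl (Fin m)).sumCongr (finCongr (by omega : m = m + m - m)))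
      (dsum (N⁻¹ * M⁻¹ * N * M) (1 : (Matrix (Fin m) (Fin m) R)ˣ)) =
      dsum (N⁻¹ * M⁻¹ * N * M) 1 := by
    ext1
    ext a b
    rcases a with a | a <;> rcases b with b | b <;> simp [reidx, dsum, Matrix.one_apply]
  rw [← h4]
  exact reidx_mem _ h2

end rep

variable {ι : Type} [Fintype ι] [DecidableEq ι]

/-- **Stable Whitehead lemma.** -/
theorem elem_of_clM_eq_one (M : (Matrix ι ι R)ˣ) (h : clM M = 1) :
    ∃ p : ℕ, dsum M (1 : (Matrix (Fin p) (Fin p) R)ˣ) ∈ ElemG (ι ⊕ Fin p) R := by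
  obtain ⟨m, ⟨e₀⟩⟩ : ∃ m, Nonempty (ι ≃ Fin m) := ⟨_, ⟨Fintype.equivFin ι⟩⟩
  let M' := reidx e₀ M
  have h' : clM M' = 1 := by
    rw [← h]
    exact (whSys R).cl_reidx e₀ M
  obtain ⟨φ, hφ⟩ : ∃ φ : St R, Rep φ m M' := ⟨_, rep_push m M'⟩
  rw [clM_eq_of_rep hφ] at h'
  have hmem : φ ∈ ElemSt R := commutator_le_ElemSt ((QuotientGroup.eq_one_iff φ).1 h')
  obtain ⟨n, E, hE, hφE⟩ := hmem
  obtain ⟨e, he⟩ := hφ.stab (max m n) (le_max_left _ _)
  obtain ⟨f, hf⟩ := hφE.stab (max m n) (le_max_right _ _)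
  have h2 : reidx e (dsum M' 1) ∈ ElemG (Fin (max m n)) R := by
    rw [he.unique hf]
    exact reidx_mem f (dsum_mem hE)
  refine ⟨max m n - m, ?_⟩
  have h3 : dsum M (1 : (Matrix (Fin (max m n - m)) (Fin (max m n - m)) R)ˣ) =
      reidx (e.symm.trans (e₀.symm.sumCongr (Equiv.refl _))) (reidx e (dsum M' 1)) := by
    rw [reidx_reidx]
    ext1
    ext a b
    rcases a with a | a <;> rcases b with b | b <;>
      simp [reidx, dsum, M', Matrix.one_apply]
  rw [h3]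
  exact reidx_mem _ h2

theorem clM_eq_one_of_elem (M : (Matrix ι ι R)ˣ) (hM : M ∈ ElemG ι R) : clM M = 1 := by
  have h : ElemG ι R ≤ (clM : (Matrix ι ι R)ˣ →* K1 R).ker := by
    rw [ElemG, Subgroup.closure_le]
    rintro _ ⟨i, j, h, c, rfl⟩
    exact clM_tv i j h c _ rfl
  exact h hM

theorem clM_eq_one_iff (M : (Matrix ι ι R)ˣ) :
    clM M = 1 ↔ ∃ p : ℕ, dsum M (1 : (Matrix (Fin p) (Fin p) R)ˣ) ∈ ElemG (ι ⊕ Fin p) R := by
  refine ⟨elem_of_clM_eq_one M, fun ⟨p, hp⟩ => ?_⟩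
  rw [← clM_eq_one_of_elem _ hp]
  exact ((whSys R).cl_stab M).symm

end Pool.Agent.SH
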