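import Pool.Agent.Lib_helper64.SH.K1

/-!
Row reduction of unimodular frames over a ring which is additively free of rank `d`:
if `U` is an `ι × κ` matrix with a left inverse and `|ι| ≥ |κ| + d`, then a product of
transvections moves `U` to the standard frame.
-/

namespace Pool.Agent.SH

open Matrix

universe u

variable {R : Type u} [Ring R]
variable {ι : Type} [Fintype ι] [DecidableEq ι]

theorem tv_mem (i j : ι) (h : i ≠ j) (c : R) : tv i j h c ∈ ElemG ι R :=
  Subgroup.subset_closure ⟨i, j, h, c, rfl⟩

theorem tv_mul_apply {κ : Type} (i j : ι) (h : i ≠ j) (c : R) (U : Matrix ι κ R) (a : ι) (b : κ) :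
    ((tv i j h c).val * U) a b = U a b + if a = i then c * U j b else 0 := by
  simp only [tv, Matrix.add_mul, Matrix.one_mul, Matrix.add_apply]
  congr 1
  by_cases ha : a = i
  · subst ha; simp [Matrix.mul_apply, Matrix.single]
  · simp [Matrix.mul_apply, Matrix.single, ha, Ne.symm ha]

/-- add to row `i` a combination of the other rows -/
theorem exists_rowE (i : ι) (r : ι → R) (h : r i = 0) :
    ∃ E ∈ ElemG ι R, ∀ {κ : Type} (U : Matrix ι κ R) (a : ι) (b : κ),
      (E.val * U) a b = U a b + if a = i then ∑ k, r k * U k b else 0 := by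
  classical
  have key : ∀ s : Finset ι, i ∉ s → ∃ E ∈ ElemG ι R, ∀ {κ : Type} (U : Matrix ι κ R)
      (a : ι) (b : κ), (E.val * U) a b = U a b + if a = i then ∑ k ∈ s, r k * U k b else 0 := by
    intro s
    induction s using Finset.induction_on with
    | empty => intro _; exact ⟨1, one_mem _, by intro κ U a b; simp⟩
    | insert k s hk ih =>
      intro hi
      rw [Finset.mem_insert, not_or] at hi
      obtain ⟨E, hE, hE'⟩ := ih hi.2
      refine ⟨tv i k hi.1 (r k) * E, mul_mem (tv_mem _ _ _ _) hE, ?_⟩
      intro κ U a b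
      rw [Units.val_mul, Matrix.mul_assoc, tv_mul_apply, hE', hE', if_neg (Ne.symm hi.1)]
      by_cases ha : a = i
      · subst ha
        simp only [if_true, Finset.sum_insert hk]
        abel
      · simp [ha]
  obtain ⟨E, hE, hE'⟩ := key (Finset.univ.erase i) (by simp)
  refine ⟨E, hE, ?_⟩
  intro κ U a b
  rw [hE']
  congr 2
  rw [← Finset.add_sum_erase _ _ (Finset.mem_univ i), h, zero_mul, zero_add]

/-- add to every row `a ≠ j` a multiple of the row `j` -/
theorem exists_clearE (j : ι) (c : ι → R) (h : c j = 0) :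
    ∃ E ∈ ElemG ι R, ∀ {κ : Type} (U : Matrix ι κ R) (a : ι) (b : κ),
      (E.val * U) a b = U a b + c a * U j b := by
  classical
  have key : ∀ s : Finset ι, j ∉ s → ∃ E ∈ ElemG ι R, ∀ {κ : Type} (U : Matrix ι κ R)
      (a : ι) (b : κ), (E.val * U) a b = U a b + if a ∈ s then c a * U j b else 0 := by
    intro s
    induction s using Finset.induction_on with
    | empty => intro _; exact ⟨1, one_mem _, by intro κ U a b; simp⟩
    | insert k s hk ih =>
      intro hi
      rw [Finset.mem_insert, not_or] at hi
      obtain ⟨E, hE, hE'⟩ := ih hi.2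
      refine ⟨tv k j (Ne.symm hi.1) (c k) * E, mul_mem (tv_mem _ _ _ _) hE, ?_⟩
      intro κ U a b
      rw [Units.val_mul, Matrix.mul_assoc, tv_mul_apply, hE', hE', if_neg hi.2]
      by_cases ha : a = k
      · subst ha
        simp [hk]
      · simp [ha]
  obtain ⟨E, hE, hE'⟩ := key (Finset.univ.erase j) (by simp)
  refine ⟨E, hE, ?_⟩
  intro κ U a b
  rw [hE']
  congr 1
  by_cases ha : a = j
  · subst ha; simp [h]
  · simp [ha]

section frame

variable {κ : Type} [Fintype κ] [DecidableEq κ]

/-- the columns in `S` are standard -/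
def Std (j : κ → ι) (S : Finset κ) (V : Matrix ι κ R) : Prop :=
  ∀ k ∈ S, ∀ a, V a k = if a = j k then 1 else 0

theorem euclid_rows [Module.IsTorsionFree ℤ R] (j : κ → ι) (S : Finset κ) (k₀ : κ) :
    ∀ (n : ℕ) (V : Matrix ι κ R) (c : ι → ℤ), Std j S V →
    c ≠ 0 → (∀ k ∈ S, c (j k) = 0) → ∑ i, (c i).natAbs ≤ n → ∑ i, (c i) • V i k₀ = 0 →
    ∃ E ∈ ElemG ι R, Std j S (E.val * V) ∧ ∃ i, (∀ k ∈ S, j k ≠ i) ∧ (E.val * V) i k₀ = 0 := by
  intro n
  induction n with
  | zero =>
    intro V c _ hc _ hn _
    exfalso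
    apply hc
    funext i
    have : (c i).natAbs ≤ 0 := le_trans
      (Finset.single_le_sum (f := fun i => (c i).natAbs) (fun _ _ => Nat.zero_le _)
        (Finset.mem_univ i)) hn
    simpa using this
  | succ n ih =>
    intro V c hV hc hcS hn hrel
    obtain ⟨i, hi⟩ : ∃ i, c i ≠ 0 := by
      by_contra hcon
      push Not at hcon
      exact hc (funext hcon)
    by_cases hone : ∀ k, k ≠ i → c k = 0
    · refine ⟨1, one_mem _, by simpa using hV, i, fun k hk h => hi (h ▸ hcS k hk), ?_⟩
      rw [Finset.sum_eq_single i (fun k _ hk => by rw [hone k hk, zero_smul]) (by simp)] at hrel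
      simpa using (smul_eq_zero.1 hrel).resolve_left hi
    · push Not at hone
      obtain ⟨k, hki, hk⟩ := hone
      have key : ∀ (i k : ι), k ≠ i → c i ≠ 0 → c k ≠ 0 → (c i).natAbs ≤ (c k).natAbs →
          ∃ E ∈ ElemG ι R, Std j S (E.val * V) ∧
            ∃ i, (∀ k ∈ S, j k ≠ i) ∧ (E.val * V) i k₀ = 0 := by
        intro i k hki hi hk hle
        obtain ⟨q, hq⟩ : ∃ q : ℤ, (c k - q * c i).natAbs < (c k).natAbs := by
          rcases lt_or_gt_of_ne hi with h1 | h1 <;> rcases lt_or_gt_of_ne hk with h2 | h2
          · exact ⟨1, by omega⟩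
          · exact ⟨-1, by omega⟩
          · exact ⟨-1, by omega⟩
          · exact ⟨1, by omega⟩
        let E₁ : (Matrix ι ι R)ˣ := tv i k (Ne.symm hki) (q : R)
        have hE1 : E₁ ∈ ElemG ι R := tv_mem _ _ _ _
        have hE1' : ∀ a b, (E₁.val * V) a b = V a b + if a = i then (q : R) * V k b else 0 :=
          fun a b => tv_mul_apply _ _ _ _ _ _ _
        let c' : ι → ℤ := Function.update c k (c k - q * c i)
        have hc' : c' ≠ 0 := by
          intro h0
          have := congrFun h0 i
          simp [c', Function.update_of_ne (Ne.symm hki)] at this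
          exact hi this
        have hkS : ∀ l ∈ S, k ≠ j l := fun l hl h => hk (h ▸ hcS l hl)
        have hc'S : ∀ l ∈ S, c' (j l) = 0 := by
          intro l hl
          simp only [c']
          rw [Function.update_of_ne (Ne.symm (hkS l hl))]
          exact hcS l hl
        have hStd : Std j S (E₁.val * V) := by
          intro l hl a
          rw [hE1', hV l hl, hV l hl k, if_neg (hkS l hl)]
          simp
        have hsum : ∑ l, (c' l).natAbs ≤ n := by
          have h3 : ∑ l, (c' l).natAbs < ∑ l, (c l).natAbs := by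
            apply Finset.sum_lt_sum
            · intro l _
              by_cases hl : l = k
              · subst hl; simp only [c', Function.update_self]; omega
              · simp [c', Function.update_of_ne hl]
            · exact ⟨k, Finset.mem_univ _, by simpa [c'] using hq⟩
          omega
        have hrel' : ∑ l, (c' l) • (E₁.val * V) l k₀ = 0 := by
          have e1 : ∀ l, (c' l) • (E₁.val * V) l k₀ = (c l) • V l k₀ +
              ((if l = i then (c i * q) • V k k₀ else 0) -
                (if l = k then (q * c i) • V k k₀ else 0)) := by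
            intro l
            by_cases hl : l = i
            · subst hl
              rw [hE1']
              simp [c', Function.update_of_ne (Ne.symm hki), Ne.symm hki, smul_add, mul_assoc]
            · by_cases hl2 : l = k
              · subst hl2
                rw [hE1']
                simp [c', hl, sub_mul, sub_eq_add_neg, add_mul]
              · rw [hE1']
                simp [c', Function.update_of_ne hl2, hl, hl2]
          rw [Finset.sum_congr rfl fun l _ => e1 l, Finset.sum_add_distrib, hrel,
            Finset.sum_sub_distrib]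
          simp [mul_comm]
        obtain ⟨E₂, hE2, h4, h5⟩ := ih (E₁.val * V) c' hStd hc' hc'S hsum hrel'
        refine ⟨E₂ * E₁, mul_mem hE2 hE1, ?_, ?_⟩
        · rw [Units.val_mul, Matrix.mul_assoc]; exact h4
        · rw [Units.val_mul, Matrix.mul_assoc]; exact h5
      rcases le_total (c i).natAbs (c k).natAbs with h | h
      · exact key i k hki hi hk h
      · exact key k i (Ne.symm hki) hk hi h

theorem std_frame [Module.Free ℤ R] [Module.Finite ℤ R] (j : κ → ι) (hj : Function.Injective j)
    (hcard : Fintype.card κ + Module.finrank ℤ R ≤ Fintype.card ι)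
    (U : Matrix ι κ R) (W : Matrix κ ι R) (hWU : W * U = 1) (S : Finset κ) :
    ∃ E ∈ ElemG ι R, Std j S (E.val * U) := by
  classical
  induction S using Finset.induction_on with
  | empty => exact ⟨1, one_mem _, by intro k hk; simp at hk⟩
  | insert k₀ S hk₀ ih =>
    obtain ⟨E, hE, hS⟩ := ih
    -- dependency among the free rows
    let T : Finset ι := Finset.univ \ S.image j
    have hT : ∀ i, i ∈ T ↔ ∀ k ∈ S, j k ≠ i := by
      intro i; simp [T]
    have hTcard : Module.finrank ℤ R < T.card := by
      have h1 : (S.image j).card = S.card := Finset.card_image_of_injective _ hj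
      have h2 : T.card = Fintype.card ι - S.card := by
        rw [Finset.card_sdiff, Finset.inter_univ, h1, Finset.card_univ]
      have h3 : S.card < Fintype.card κ := by
        rw [← Finset.card_univ]
        apply Finset.card_lt_card
        refine ⟨Finset.subset_univ _, fun h => hk₀ (h (Finset.mem_univ k₀))⟩
      omega
    obtain ⟨c, hc, hcS, hrel⟩ : ∃ c : ι → ℤ, c ≠ 0 ∧ (∀ k ∈ S, c (j k) = 0) ∧
        ∑ i, (c i) • (E.val * U) i k₀ = 0 := by
      by_contra hcon
      have hli : LinearIndependent ℤ (fun i : T => (E.val * U) i.1 k₀) := by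
        rw [Fintype.linearIndependent_iff]
        intro g hg i
        by_contra hi
        refine hcon ⟨fun a => if ha : a ∈ T then g ⟨a, ha⟩ else 0, ?_, ?_, ?_⟩
        · intro h0
          have := congrFun h0 i.1
          simp only [Finset.coe_mem, dite_true, Subtype.coe_eta, Pi.zero_apply] at this
          exact hi this
        · intro k hk
          have : j k ∉ T := fun h => (hT _).1 h k hk rfl
          simp [this]
        · rw [← hg]
          rw [← Finset.sum_subset (Finset.subset_univ T)]
          · rw [← Finset.sum_coe_sort T]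
            refine Finset.sum_congr rfl fun a _ => ?_
            simp
          · intro a _ ha
            simp [ha]
      have := hli.fintype_card_le_finrank
      rw [Fintype.card_coe] at this
      omega
    obtain ⟨E₁, hE1, hS1, i, hiT, hi0⟩ := euclid_rows j S k₀ _ (E.val * U) c hS hc hcS le_rfl hrel
    -- the entry one at (i, k₀)
    set V₁ := E₁.val * (E.val * U) with hV1
    let W₁ : Matrix κ ι R := W * E⁻¹.val * E₁⁻¹.val
    have hW1 : W₁ * V₁ = 1 := by
      have e : W₁ * V₁ = W * (E⁻¹.val * (E₁⁻¹.val * E₁.val) * E.val) * U := by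
        simp only [W₁, hV1, Matrix.mul_assoc]
      rw [e, Units.inv_mul, Matrix.mul_one, Units.inv_mul, Matrix.mul_one, hWU]
    have hW1S : ∀ k ∈ S, W₁ k₀ (j k) = 0 := by
      intro k hk
      have h1 : (W₁ * V₁) k₀ k = 0 := by
        rw [hW1, Matrix.one_apply_ne]
        rintro rfl
        exact hk₀ hk
      rw [Matrix.mul_apply, Finset.sum_eq_single (j k)] at h1
      · rwa [hS1 k hk, if_pos rfl, mul_one] at h1
      · intro a _ ha
        rw [hS1 k hk, if_neg ha, mul_zero]
      · simp
    have hW1c : ∑ a, W₁ k₀ a * V₁ a k₀ = 1 := by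
      rw [← Matrix.mul_apply, hW1, Matrix.one_apply_eq]
    obtain ⟨E₂, hE2, hE2'⟩ := exists_rowE i (fun a => if a = i then 0 else W₁ k₀ a) (by simp)
    have h2i : (E₂.val * V₁) i k₀ = 1 := by
      rw [hE2', hi0, if_pos rfl, zero_add, ← hW1c]
      refine Finset.sum_congr rfl fun a _ => ?_
      by_cases ha : a = i
      · subst ha; simp [hi0]
      · simp [ha]
    have hS2 : Std j S (E₂.val * V₁) := by
      intro k hk a
      rw [hE2', hS1 k hk]
      have : ∑ b, (if b = i then 0 else W₁ k₀ b) * V₁ b k = 0 := by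
        refine Finset.sum_eq_zero fun b _ => ?_
        rw [hS1 k hk]
        by_cases hb : b = j k
        · subst hb
          rw [hW1S k hk]; simp
        · simp [hb]
      rw [this]; simp
    -- the entry one at (j k₀, k₀)
    set V₂ := E₂.val * V₁ with hV2
    obtain ⟨E₃, hE3, h3, hS3⟩ : ∃ E₃ ∈ ElemG ι R, (E₃.val * V₂) (j k₀) k₀ = 1 ∧
        Std j S (E₃.val * V₂) := by
      by_cases hji : j k₀ = i
      · exact ⟨1, one_mem _, by rw [hji]; simpa using h2i, by simpa using hS2⟩
      · refine ⟨tv (j k₀) i hji (1 - V₂ (j k₀) k₀), tv_mem _ _ _ _, ?_, ?_⟩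
        · rw [tv_mul_apply, if_pos rfl, h2i]; simp
        · intro k hk a
          rw [tv_mul_apply, hS2 k hk, hS2 k hk i, if_neg (Ne.symm (hiT k hk))]
          simp
    set V₃ := E₃.val * V₂ with hV3
    obtain ⟨E₄, hE4, hE4'⟩ := exists_clearE (j k₀) (fun a => if a = j k₀ then 0 else - V₃ a k₀)
      (by simp)
    refine ⟨E₄ * (E₃ * (E₂ * (E₁ * E))), mul_mem hE4 (mul_mem hE3 (mul_mem hE2 (mul_mem hE1 hE))),
      ?_⟩
    have e5 : (E₄ * (E₃ * (E₂ * (E₁ * E)))).val * U = E₄.val * V₃ := by
      simp only [Units.val_mul, hV3, hV2, hV1, Matrix.mul_assoc]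
    rw [e5]
    intro k hk a
    rw [hE4']
    rcases Finset.mem_insert.1 hk with rfl | hk
    · by_cases ha : a = j k
      · subst ha; simp [h3]
      · simp [ha, h3]
    · have : j k₀ ≠ j k := fun h => hk₀ (by rw [hj h]; exact hk)
      rw [hS3 k hk, hS3 k hk (j k₀), if_neg this]
      simp

/-- **Unimodular frames are standard up to elementary row operations.** -/
theorem exists_elem_mul_eq [Module.Free ℤ R] [Module.Finite ℤ R] (j : κ → ι)
    (hj : Function.Injective j)
    (hcard : Fintype.card κ + Module.finrank ℤ R ≤ Fintype.card ι)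
    (U : Matrix ι κ R) (W : Matrix κ ι R) (hWU : W * U = 1) :
    ∃ E ∈ ElemG ι R, E.val * U = Matrix.of fun a k => if a = j k then 1 else 0 := by
  obtain ⟨E, hE, h⟩ := std_frame j hj hcard U W hWU Finset.univ
  refine ⟨E, hE, ?_⟩
  ext a k
  exact h k (Finset.mem_univ k) a

end frame

/-- block form, `ι = κ ⊕ ρ` -/
theorem exists_elem_mul_eq_fromRows {κ ρ : Type} [Fintype κ] [DecidableEq κ] [Fintype ρ]
    [DecidableEq ρ] [Module.Free ℤ R] [Module.Finite ℤ R]
    (hcard : Module.finrank ℤ R ≤ Fintype.card ρ)
    (U : Matrix (κ ⊕ ρ) κ R) (W : Matrix κ (κ ⊕ ρ) R) (hWU : W * U = 1) :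
    ∃ E ∈ ElemG (κ ⊕ ρ) R, E.val * U = Matrix.fromRows 1 0 := by
  obtain ⟨E, hE, h⟩ := exists_elem_mul_eq (Sum.inl : κ → κ ⊕ ρ) Sum.inl_injective
    (by rw [Fintype.card_sum]; omega) U W hWU
  refine ⟨E, hE, ?_⟩
  rw [h]
  ext a k
  rcases a with a | a <;> simp [Matrix.one_apply]

/-- form with `Fin (k + r)` -/
theorem exists_elem_mul_eq_fin {k r : ℕ} [Module.Free ℤ R] [Module.Finite ℤ R]
    (hcard : Module.finrank ℤ R ≤ r)
    (U : Matrix (Fin (k + r)) (Fin k) R) (W : Matrix (Fin k) (Fin (k + r)) R) (hWU : W * U = 1) :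
    ∃ E ∈ ElemG (Fin (k + r)) R,
      E.val * U = Matrix.of fun a b => if a = Fin.castAdd r b then 1 else 0 :=
  exists_elem_mul_eq (Fin.castAdd r) (Fin.castAdd_injective k r) (by simpa using hcard) U W hWU

end Pool.Agent.SH
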