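import Mathlib

/-!
Axiomatic `K₁`-theory: a *class system* assigns to every invertible matrix over `R` an element
of a commutative group, multiplicatively, trivially on transvections, compatibly with
stabilisation and re-indexing.  (The universal one is `K₁(R)`.)
-/

namespace Pool.Agent.SH

open Matrix

universe u v

section defs

variable {R : Type u} [Ring R]

/-- the transvection `1 + c e_{ij}` (`i ≠ j`) -/
def tv {ι : Type} [Fintype ι] [DecidableEq ι] (i j : ι) (h : i ≠ j) (c : R) :
    (Matrix ι ι R)ˣ where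
  val := 1 + Matrix.single i j c
  inv := 1 - Matrix.single i j c
  val_inv := by
    simp [add_mul, mul_sub, Matrix.single_mul_single_of_ne, h.symm]
  inv_val := by
    simp [sub_mul, mul_add, Matrix.single_mul_single_of_ne, h.symm]

/-- the group of elementary matrices -/
def ElemG (ι : Type) [Fintype ι] [DecidableEq ι] (R : Type u) [Ring R] :
    Subgroup (Matrix ι ι R)ˣ :=
  Subgroup.closure {A | ∃ (i j : ι) (h : i ≠ j) (c : R), A = tv i j h c}

/-- block diagonal sum of invertible matrices -/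
def dsum {ι κ : Type} [Fintype ι] [DecidableEq ι] [Fintype κ] [DecidableEq κ]
    (A : (Matrix ι ι R)ˣ) (B : (Matrix κ κ R)ˣ) : (Matrix (ι ⊕ κ) (ι ⊕ κ) R)ˣ where
  val := fromBlocks A.val 0 0 B.val
  inv := fromBlocks A⁻¹.val 0 0 B⁻¹.val
  val_inv := by simp [fromBlocks_multiply]
  inv_val := by simp [fromBlocks_multiply]

/-- reindexing invertible matrices -/
def reidx {ι κ : Type} [Fintype ι] [DecidableEq ι] [Fintype κ] [DecidableEq κ]
    (e : ι ≃ κ) : (Matrix ι ι R)ˣ →* (Matrix κ κ R)ˣ :=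
  Units.map (Matrix.reindexAlgEquiv ℤ R e : Matrix ι ι R →* Matrix κ κ R)

end defs

/-- a class system for `R` with values in `K` -/
structure ClassSys (R : Type u) [Ring R] (K : Type v) [CommGroup K] where
  cl : ∀ {ι : Type} [Fintype ι] [DecidableEq ι], (Matrix ι ι R)ˣ →* K
  cl_tv : ∀ {ι : Type} [Fintype ι] [DecidableEq ι] (i j : ι) (h : i ≠ j) (c : R),
    cl (tv i j h c) = 1
  cl_stab : ∀ {ι κ : Type} [Fintype ι] [DecidableEq ι] [Fintype κ] [DecidableEq κ]
    (A : (Matrix ι ι R)ˣ), cl (dsum A (1 : (Matrix κ κ R)ˣ)) = cl A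
  cl_reidx : ∀ {ι κ : Type} [Fintype ι] [DecidableEq ι] [Fintype κ] [DecidableEq κ]
    (e : ι ≃ κ) (A : (Matrix ι ι R)ˣ), cl (reidx e A) = cl A

namespace ClassSys

variable {R : Type u} [Ring R] {K : Type v} [CommGroup K] (S : ClassSys R K)
variable {ι κ : Type} [Fintype ι] [DecidableEq ι] [Fintype κ] [DecidableEq κ]

/-- upper unitriangular block matrix -/
def ub (X : Matrix ι κ R) : (Matrix (ι ⊕ κ) (ι ⊕ κ) R)ˣ where
  val := fromBlocks 1 X 0 1
  inv := fromBlocks 1 (-X) 0 1
  val_inv := by simp [fromBlocks_multiply]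
  inv_val := by simp [fromBlocks_multiply]

/-- lower unitriangular block matrix -/
def lb (Y : Matrix κ ι R) : (Matrix (ι ⊕ κ) (ι ⊕ κ) R)ˣ where
  val := fromBlocks 1 0 Y 1
  inv := fromBlocks 1 0 (-Y) 1
  val_inv := by simp [fromBlocks_multiply]
  inv_val := by simp [fromBlocks_multiply]

omit [Fintype ι] [DecidableEq ι] [Fintype κ] [DecidableEq κ] in
theorem ub_add [Fintype ι] [DecidableEq ι] [Fintype κ] [DecidableEq κ] (X Y : Matrix ι κ R) :
    ub (X + Y) = ub X * ub Y := by
  ext1
  simp [ub, fromBlocks_multiply, add_comm]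

theorem lb_add (X Y : Matrix κ ι R) : lb (X + Y) = lb X * lb Y := by
  ext1
  simp [lb, fromBlocks_multiply]

theorem cl_ub (X : Matrix ι κ R) : S.cl (ub X) = 1 := by
  classical
  induction X using Matrix.induction_on' with
  | h_zero => 
    have : ub (0 : Matrix ι κ R) = 1 := by ext1; simp [ub]
    rw [this, map_one]
  | h_add p q hp hq => rw [ub_add, map_mul, hp, hq, mul_one]
  | h_std_basis i j x =>
    have : ub (Matrix.single i j x) = tv (Sum.inl i) (Sum.inr j) (by simp) x := by
      ext1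
      ext a b
      rcases a with a | a <;> rcases b with b | b <;>
        simp [ub, tv, Matrix.single, Matrix.one_apply]
    rw [this, S.cl_tv]

theorem cl_lb (X : Matrix κ ι R) : S.cl (lb X) = 1 := by
  classical
  induction X using Matrix.induction_on' with
  | h_zero => 
    have : lb (0 : Matrix κ ι R) = 1 := by ext1; simp [lb]
    rw [this, map_one]
  | h_add p q hp hq => rw [lb_add, map_mul, hp, hq, mul_one]
  | h_std_basis i j x =>
    have : lb (Matrix.single i j x) = tv (Sum.inr i) (Sum.inl j) (by simp) x := by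
      ext1
      ext a b
      rcases a with a | a <;> rcases b with b | b <;>
        simp [lb, tv, Matrix.single, Matrix.one_apply]
    rw [this, S.cl_tv]

theorem cl_stab' (A : (Matrix κ κ R)ˣ) : S.cl (dsum (1 : (Matrix ι ι R)ˣ) A) = S.cl A := by
  rw [← S.cl_stab (κ := ι) A, ← S.cl_reidx (Equiv.sumComm ι κ)]
  congr 1
  ext1
  ext a b
  rcases a with a | a <;> rcases b with b | b <;> 
    simp [reidx, dsum]

theorem cl_dsum (A : (Matrix ι ι R)ˣ) (B : (Matrix κ κ R)ˣ) :
    S.cl (dsum A B) = S.cl A * S.cl B := by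
  have : dsum A B = dsum A 1 * dsum 1 B := by
    ext1
    simp [dsum, fromBlocks_multiply]
  rw [this, map_mul, S.cl_stab, S.cl_stab']

/-- **Sylvester/Whitehead identity** `[1 + XY] = [1 + YX]`. -/
theorem cl_sylvester (X : Matrix ι κ R) (Y : Matrix κ ι R) (U : (Matrix ι ι R)ˣ)
    (V : (Matrix κ κ R)ˣ) (hU : U.val = 1 + X * Y) (hV : V.val = 1 + Y * X) :
    S.cl U = S.cl V := by
  have hL1 : (lb (Y * (U⁻¹).val) * dsum U (1 : (Matrix κ κ R)ˣ)).val = fromBlocks U.val 0 Y 1 := by
    simp [lb, dsum, fromBlocks_multiply, Matrix.mul_assoc]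
  have hL2 : (dsum (1 : (Matrix ι ι R)ˣ) V * lb ((V⁻¹).val * Y)).val =
      fromBlocks 1 0 Y V.val := by
    simp [lb, dsum, fromBlocks_multiply, ← Matrix.mul_assoc]
  have key : (lb (Y * (U⁻¹).val) * dsum U (1 : (Matrix κ κ R)ˣ)) * ub X =
      ub X * (dsum (1 : (Matrix ι ι R)ˣ) V * lb ((V⁻¹).val * Y)) := by
    apply Units.ext
    rw [Units.val_mul, Units.val_mul (ub X), hL1, hL2]
    simp only [ub, fromBlocks_multiply, hU, hV]
    congr 1
    · simp
    · simp [Matrix.add_mul, Matrix.mul_add, Matrix.mul_assoc]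
    · simp
    · simp [add_comm]
  have := congrArg S.cl key
  simp only [map_mul, cl_lb, cl_ub, S.cl_stab, cl_stab', one_mul, mul_one] at this
  exact this

/-- if `YX = 0` then `1 + XY` has trivial class -/
theorem cl_eq_one_of_mul_eq_zero (X : Matrix ι κ R) (Y : Matrix κ ι R) (U : (Matrix ι ι R)ˣ)
    (hU : U.val = 1 + X * Y) (h : Y * X = 0) : S.cl U = 1 := by
  rw [S.cl_sylvester X Y U 1 hU (by simp [h]), map_one]

/-- conjugation by a cancellable (not necessarily invertible) matrix:
if `A = 1 + X T` and `T A = A' T`, `T` cancellable on the right, then `[A] = [A']`. -/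
theorem cl_eq_of_intertwine (T : Matrix κ ι R) (X : Matrix ι κ R) (A : (Matrix ι ι R)ˣ)
    (A' : (Matrix κ κ R)ˣ) (hA : A.val = 1 + X * T) (hT : T * A.val = A'.val * T)
    (hc : ∀ Z : Matrix κ κ R, Z * T = 0 → Z = 0) : S.cl A = S.cl A' := by
  refine S.cl_sylvester X T A A' hA ?_
  have : (A'.val - (1 + T * X)) * T = 0 := by
    rw [Matrix.sub_mul, ← hT, hA]
    simp [Matrix.add_mul, Matrix.mul_add, Matrix.mul_assoc]
  exact sub_eq_zero.1 (hc _ this)

end ClassSys

end Pool.Agent.SH
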