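import Pool.Agent.Lib_helper64.SH.K1Row

/-!
For a reduced commutative ring `R`, finitely generated and free as a `ℤ`-module, every class in
`K₁(R)` has a positive power which is the class of a unit.
-/

namespace Pool.Agent.SH

open Matrix

universe u v

section ringlemmas

variable {R : Type u} [CommRing R]

/-- an element outside all the minimal primes of a reduced ring is a non-zero-divisor -/
theorem mem_nzd_of_notMem_minimalPrimes [IsReduced R] (x : R)
    (h : ∀ p ∈ minimalPrimes R, x ∉ p) : x ∈ nonZeroDivisors R := by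
  rw [mem_nonZeroDivisors_iff_right]
  intro y hy
  have h1 : y ∈ sInf (minimalPrimes R) := by
    rw [Ideal.mem_sInf]
    intro p hp
    have hp' : p.IsPrime := hp.1.1
    have : y * x ∈ p := by rw [hy]; exact p.zero_mem
    exact (hp'.mem_or_mem this).resolve_right (h p hp)
  have h2 : sInf (minimalPrimes R) = (⊥ : Ideal R) := by
    have := Ideal.sInf_minimalPrimes (I := (⊥ : Ideal R))
    refine this.trans ?_
    exact nilradical_eq_zero R
  rw [h2] at h1
  simpa using h1

/-- integer combination which is a non-zero-divisor -/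
theorem exists_int_comb_nzd [IsReduced R] [Module.Free ℤ R] [Module.Finite ℤ R]
    {ι : Type} [Fintype ι] [DecidableEq ι] (v r : ι → R) (hv : ∑ i, r i * v i = 1) (i₀ : ι) :
    ∃ t : ι → ℤ, t i₀ = 0 ∧ v i₀ + ∑ k, (t k : R) * v k ∈ nonZeroDivisors R := by
  classical
  have hnoeth : IsNoetherianRing R := IsNoetherianRing.of_finite ℤ R
  have hfin : (minimalPrimes R).Finite := minimalPrimes.finite_of_isNoetherianRing R
  let e : ι → ℕ := fun k => if k = i₀ then 0 else (Fintype.equivFin ι k).val + 1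
  have he : Function.Injective e := by
    intro a b hab
    simp only [e] at hab
    split_ifs at hab with h1 h2 h3
    · rw [h1, h2]
    · have : Fintype.equivFin ι a = Fintype.equivFin ι b := by
        apply Fin.ext; omega
      exact (Fintype.equivFin ι).injective this
  -- the polynomial
  let F : Polynomial R := ∑ k, Polynomial.monomial (e k) (v k)
  have hcoeff : ∀ k, F.coeff (e k) = v k := by
    intro k
    simp only [F, Polynomial.finsetSum_coeff, Polynomial.coeff_monomial]
    rw [Finset.sum_eq_single k]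
    · simp
    · intro b _ hb
      rw [if_neg (fun h => hb (he h))]
    · simp
  have hbad : ∀ p ∈ minimalPrimes R, {n : ℤ | F.eval (n : R) ∈ p}.Finite := by
    intro p hp
    have hp' : p.IsPrime := hp.1.1
    have hchar : Function.Injective (Int.cast : ℤ → R ⧸ p) := by
      refine (injective_iff_map_eq_zero' (Int.castRingHom (R ⧸ p))).2 ?_
      intro n
      constructor
      · intro hn
        by_contra hn0
        have hmem : (n : R) ∈ p := by
          rw [← Ideal.Quotient.eq_zero_iff_mem]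
          simpa using hn
        refine notMem_nonZeroDivisors_of_mem_mem_minimalPrimes hmem hp ?_
        rw [mem_nonZeroDivisors_iff_right]
        intro y hy
        have : n • y = 0 := by rw [zsmul_eq_mul, mul_comm]; exact hy
        exact (smul_eq_zero.1 this).resolve_left hn0
      · intro h; rw [h]; simp
    have hne : F.map (Ideal.Quotient.mk p) ≠ 0 := by
      intro h0
      have hall : ∀ k, v k ∈ p := by
        intro k
        rw [← Ideal.Quotient.eq_zero_iff_mem, ← hcoeff k, ← Polynomial.coeff_map, h0]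
        simp
      have : (1 : R) ∈ p := by
        rw [← hv]
        exact p.sum_mem fun k _ => p.mul_mem_left _ (hall k)
      exact hp'.ne_top ((Ideal.eq_top_iff_one p).2 this)
    have hroots : ({x : R ⧸ p | (F.map (Ideal.Quotient.mk p)).IsRoot x}).Finite :=
      Polynomial.finite_setOfPred_isRoot hne
    refine (hroots.preimage (hchar.injOn)).subset ?_
    intro n hn
    simp only [Set.mem_preimage, Set.mem_ofPred_eq, Polynomial.IsRoot.def] at hn ⊢
    rw [← map_intCast (Ideal.Quotient.mk p), Polynomial.eval_map_apply]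
    exact Ideal.Quotient.eq_zero_iff_mem.2 hn
  obtain ⟨n, hn⟩ : ∃ n : ℤ, ∀ p ∈ minimalPrimes R, F.eval (n : R) ∉ p := by
    have hfin2 : (⋃ p ∈ minimalPrimes R, {n : ℤ | F.eval (n : R) ∈ p}).Finite :=
      hfin.biUnion hbad
    obtain ⟨n, hn⟩ := hfin2.exists_notMem
    refine ⟨n, fun p hp h => hn ?_⟩
    simp only [Set.mem_iUnion]
    exact ⟨p, hp, h⟩
  refine ⟨fun k => if k = i₀ then 0 else n ^ e k, by simp, ?_⟩
  have : v i₀ + ∑ k, (((if k = i₀ then 0 else n ^ e k : ℤ)) : R) * v k = F.eval (n : R) := by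
    simp only [F, Polynomial.eval_finsetSum, Polynomial.eval_monomial]
    rw [← Finset.add_sum_erase _ (fun k => v k * (n : R) ^ e k) (Finset.mem_univ i₀),
      ← Finset.add_sum_erase _ (fun k => (((if k = i₀ then 0 else n ^ e k : ℤ)) : R) * v k)
        (Finset.mem_univ i₀)]
    have h1 : e i₀ = 0 := by simp [e]
    rw [h1]
    simp only [if_true, Int.cast_zero, zero_mul, zero_add, pow_zero, mul_one]
    congr 1
    refine Finset.sum_congr rfl fun k hk => ?_
    rw [if_neg (Finset.ne_of_mem_erase hk)]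
    push_cast
    ring
  rw [this]
  exact mem_nzd_of_notMem_minimalPrimes _ hn

theorem finite_quot_of_nzd [Module.Free ℤ R] [Module.Finite ℤ R] (a : R)
    (ha : a ∈ nonZeroDivisors R) : Finite (R ⧸ Ideal.span {a}) := by
  have hinj : Function.Injective (LinearMap.mulLeft ℤ a) := by
    rw [injective_iff_map_eq_zero]
    intro y hy
    rw [mem_nonZeroDivisors_iff_left] at ha
    exact ha y hy
  have hrange : LinearMap.range (LinearMap.mulLeft ℤ a) =
      (Ideal.span {a}).restrictScalars ℤ := by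
    ext x
    simp [Ideal.mem_span_singleton', mul_comm]
  have := Submodule.finiteQuotientOfFreeOfRankEq ((Ideal.span {a}).restrictScalars ℤ) (by
    rw [← hrange]
    exact LinearMap.finrank_range_of_inj hinj)
  exact this

/-- stable range one for finite commutative rings -/
theorem exists_isUnit_add_mul [Finite R] (x y : R) (h : ∃ r s : R, r * x + s * y = 1) :
    ∃ t : R, IsUnit (x + t * y) := by
  obtain ⟨r, s, hrs⟩ := h
  obtain ⟨n, hn0, hn⟩ : ∃ n : ℕ, 0 < n ∧ x ^ n * x ^ n = x ^ n := by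
    obtain ⟨a, b, hab, heq⟩ := Finite.exists_ne_map_eq_of_infinite (fun n : ℕ => x ^ n)
    have key : ∀ a d : ℕ, 0 < d → x ^ a = x ^ (a + d) →
        ∃ n : ℕ, 0 < n ∧ x ^ n * x ^ n = x ^ n := by
      intro a d hd h
      have h1 : ∀ k : ℕ, x ^ a = x ^ (a + k * d) := by
        intro k
        induction k with
        | zero => simp
        | succ k ih =>
          rw [ih, show a + (k+1) * d = (a + d) + k * d by ring, pow_add, pow_add, ← h]
      have h2 : ∀ m : ℕ, a ≤ m → ∀ k : ℕ, x ^ m = x ^ (m + k * d) := by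
        intro m hm k
        obtain ⟨c, rfl⟩ := Nat.exists_eq_add_of_le hm
        rw [show a + c + k * d = (a + k * d) + c by ring, pow_add, pow_add _ (a + k * d),
          ← h1 k]
      refine ⟨(a + 1) * d, by positivity, ?_⟩
      rw [← pow_add]
      exact (h2 ((a + 1) * d) (by nlinarith) (a + 1)).symm
    rcases lt_or_gt_of_ne hab with h | h
    · exact key a (b - a) (by omega) (by rw [show a + (b - a) = b by omega]; exact heq)
    · exact key b (a - b) (by omega) (by rw [show b + (a - b) = a by omega]; exact heq.symm)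
  refine ⟨1 - x ^ n, ?_⟩
  by_contra hu
  obtain ⟨m, hm, hmem⟩ := exists_max_ideal_of_mem_nonunits hu
  have hp : m.IsPrime := hm.isPrime
  have hid : x ^ n * (1 - x ^ n) ∈ m := by
    have : x ^ n * (1 - x ^ n) = 0 := by rw [mul_sub, hn, mul_one, sub_self]
    rw [this]; exact m.zero_mem
  by_cases hx : x ∈ m
  · have hxn : x ^ n ∈ m := m.pow_mem_of_mem hx n hn0
    have h1 : (1 - x ^ n) * y ∈ m := (Submodule.add_mem_iff_right m hx).1 hmem
    have h2 : 1 - x ^ n ∉ m := by
      intro h
      have : (1 : R) ∈ m := by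
        have := m.add_mem h hxn
        simpa using this
      exact hp.ne_top ((Ideal.eq_top_iff_one m).2 this)
    have hy := (hp.mem_or_mem h1).resolve_left h2
    have : (1 : R) ∈ m := by
      rw [← hrs]
      exact m.add_mem (m.mul_mem_left _ hx) (m.mul_mem_left _ hy)
    exact hp.ne_top ((Ideal.eq_top_iff_one m).2 this)
  · have h1 : x ^ n ∉ m := fun h => hx (hp.mem_of_pow_mem n h)
    have h2 := (hp.mem_or_mem hid).resolve_left h1
    have h3 : x ∈ m := (Submodule.add_mem_iff_left m (m.mul_mem_right y h2)).1 hmem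
    exact hx h3

end ringlemmas

namespace ClassSys

variable {R : Type u} [CommRing R] {K : Type v} [CommGroup K] (S : ClassSys R K)
variable {ι : Type} [Fintype ι] [DecidableEq ι]

theorem col_unimodular (A : (Matrix ι ι R)ˣ) (j : ι) :
    ∑ k, A⁻¹.val j k * A.val k j = 1 := by
  rw [← Matrix.mul_apply, Units.inv_mul]; simp

/-- size `≥ 3`: produce an entry `1` -/
theorem exists_entry_one_comm [IsReduced R] [Module.Free ℤ R] [Module.Finite ℤ R]
    (A : (Matrix ι ι R)ˣ) (i₀ i₁ i₂ : ι) (h01 : i₀ ≠ i₁) (h02 : i₀ ≠ i₂) (h12 : i₁ ≠ i₂) :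
    ∃ A' : (Matrix ι ι R)ˣ, S.cl A' = S.cl A ∧ A'.val i₂ i₀ = 1 := by
  classical
  -- step 1
  obtain ⟨t, ht0, ht⟩ := exists_int_comb_nzd (fun k => A.val k i₀) (fun k => A⁻¹.val i₀ k)
    (col_unimodular A i₀) i₀
  obtain ⟨A₁, hA1, hA1'⟩ := S.exists_rowop A i₀ (fun k => (t k : R)) (by simp [ht0])
  have ha : A₁.val i₀ i₀ ∈ nonZeroDivisors R := by
    rw [hA1', if_pos rfl]; exact ht
  set a := A₁.val i₀ i₀ with hadef
  have hfin := finite_quot_of_nzd a ha
  -- step 2
  let q := Ideal.Quotient.mk (Ideal.span {a})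
  have hqa : q a = 0 := Ideal.Quotient.eq_zero_iff_mem.2 (Ideal.mem_span_singleton_self a)
  let y : R := ∑ k, if k = i₀ ∨ k = i₁ then 0 else A₁⁻¹.val i₀ k * A₁.val k i₀
  have huni := col_unimodular A₁ i₀
  have hsplit : ∑ k, A₁⁻¹.val i₀ k * A₁.val k i₀ = A₁⁻¹.val i₀ i₀ * A₁.val i₀ i₀ +
      A₁⁻¹.val i₀ i₁ * A₁.val i₁ i₀ + y := by
    have e1 : ∀ k, A₁⁻¹.val i₀ k * A₁.val k i₀ =
        (if k = i₀ then A₁⁻¹.val i₀ i₀ * A₁.val i₀ i₀ else 0) +
        (if k = i₁ then A₁⁻¹.val i₀ i₁ * A₁.val i₁ i₀ else 0) +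
        (if k = i₀ ∨ k = i₁ then 0 else A₁⁻¹.val i₀ k * A₁.val k i₀) := by
      intro k
      by_cases hk0 : k = i₀
      · subst hk0; simp [h01]
      · by_cases hk1 : k = i₁
        · subst hk1; simp [hk0]
        · simp [hk0, hk1]
    rw [Finset.sum_congr rfl fun k _ => e1 k, Finset.sum_add_distrib, Finset.sum_add_distrib]
    simp [y]
  obtain ⟨s, hs⟩ : ∃ s : R ⧸ Ideal.span {a}, IsUnit (q (A₁.val i₁ i₀) + s * q y) := by
    apply exists_isUnit_add_mul
    refine ⟨q (A₁⁻¹.val i₀ i₁), 1, ?_⟩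
    rw [← map_mul, one_mul, ← map_add]
    have : A₁⁻¹.val i₀ i₁ * A₁.val i₁ i₀ + y = 1 - A₁⁻¹.val i₀ i₀ * a := by
      rw [← huni, hsplit]; ring
    rw [this, map_sub, map_mul, hqa, mul_zero, sub_zero, map_one]
  obtain ⟨s', rfl⟩ := Ideal.Quotient.mk_surjective s
  obtain ⟨A₂, hA2, hA2'⟩ := S.exists_rowop A₁ i₁
    (fun k => if k = i₀ ∨ k = i₁ then 0 else s' * A₁⁻¹.val i₀ k) (by simp)
  have h20 : A₂.val i₀ i₀ = a := by
    rw [hA2', if_neg h01, add_zero]
  have h21 : A₂.val i₁ i₀ = A₁.val i₁ i₀ + s' * y := by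
    rw [hA2', if_pos rfl]
    congr 1
    simp only [y, Finset.mul_sum]
    refine Finset.sum_congr rfl fun k _ => ?_
    split_ifs
    · simp
    · ring
  have hunit : IsUnit (q (A₂.val i₁ i₀)) := by
    rw [h21, map_add, map_mul]; exact hs
  obtain ⟨z, hz⟩ := hunit.exists_left_inv
  obtain ⟨z', rfl⟩ := Ideal.Quotient.mk_surjective z
  obtain ⟨r, hr⟩ : ∃ r, z' * A₂.val i₁ i₀ + r * a = 1 := by
    have : q (1 - z' * A₂.val i₁ i₀) = 0 := by
      rw [map_sub, map_mul, hz, map_one, sub_self]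
    rw [Ideal.Quotient.eq_zero_iff_mem, Ideal.mem_span_singleton'] at this
    obtain ⟨r, hr⟩ := this
    exact ⟨r, by rw [hr]; ring⟩
  -- step 3
  obtain ⟨A₃, hA3, hA3'⟩ := S.exists_rowop A₂ i₂
    (fun k => (1 - A₂.val i₂ i₀) * ((if k = i₁ then z' else 0) + if k = i₀ then r else 0))
    (by simp [h02.symm, h12.symm])
  refine ⟨A₃, by rw [hA3, hA2, hA1], ?_⟩
  rw [hA3', if_pos rfl]
  have e2 : ∑ k, (1 - A₂.val i₂ i₀) * ((if k = i₁ then z' else 0) + if k = i₀ then r else 0) *
      A₂.val k i₀ = (1 - A₂.val i₂ i₀) * (z' * A₂.val i₁ i₀ + r * a) := by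
    simp only [mul_assoc, ← Finset.mul_sum, add_mul, Finset.sum_add_distrib, ite_mul, zero_mul,
      Finset.sum_ite_eq', Finset.mem_univ, if_true, h20]
  rw [e2, hr]
  ring

/-- every class is represented by a `2 × 2` matrix -/
theorem exists_two_rep [IsReduced R] [Module.Free ℤ R] [Module.Finite ℤ R] :
    ∀ (n : ℕ) (ι : Type) [Fintype ι] [DecidableEq ι],
    Fintype.card ι = n → ∀ A : (Matrix ι ι R)ˣ,
    ∃ B : (Matrix (Fin 2) (Fin 2) R)ˣ, S.cl B = S.cl A := by
  intro n
  induction n with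
  | zero =>
    intro ι _ _ hι A
    have : A = 1 := by
      have := Fintype.card_eq_zero_iff.1 hι
      ext1
      ext i
      exact isEmptyElim i
    exact ⟨1, by rw [this, map_one, map_one]⟩
  | succ n ih =>
    intro ι _ _ hι A
    by_cases hn : n + 1 ≤ 2
    · have hcard : Fintype.card (ι ⊕ Fin (2 - (n+1))) = Fintype.card (Fin 2) := by
        simp [hι]; omega
      refine ⟨reidx (Fintype.equivOfCardEq hcard) (dsum A 1), ?_⟩
      rw [S.cl_reidx, S.cl_stab]
    · push Not at hn
      obtain ⟨i₀, i₁, i₂, h01, h02, h12⟩ := Fintype.two_lt_card_iff.1 (by omega : 2 < Fintype.card ι)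
      obtain ⟨A₂, h2, h3⟩ := S.exists_entry_one_comm A i₀ i₁ i₂ h01 h02 h12
      obtain ⟨B, hB⟩ := S.exists_smaller A₂ i₂ i₀ h3
      obtain ⟨C, hC⟩ := ih {x : ι // x ≠ i₂} (by
        rw [Fintype.card_subtype_compl]; simp [hι]) B
      exact ⟨C, by rw [hC, hB, h2]⟩

/-- the `2 × 2` invertible diagonal matrix `diag(u, 1)` -/
def diagU {R : Type u} [Ring R] (u : Rˣ) : (Matrix Unit Unit R)ˣ where
  val := Matrix.of fun _ _ => u.val
  inv := Matrix.of fun _ _ => u⁻¹.val
  val_inv := by ext i j; simp [Matrix.mul_apply]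
  inv_val := by ext i j; simp [Matrix.mul_apply]

theorem diagU_mul {R : Type u} [Ring R] (u w : Rˣ) : diagU (u * w) = diagU u * diagU w := by
  ext1
  ext i j
  simp [diagU, Matrix.mul_apply]

/-- the class of a unit -/
def clU {R : Type u} [Ring R] {K : Type v} [CommGroup K] (S : ClassSys R K) : Rˣ →* K where
  toFun u := S.cl (diagU u)
  map_one' := by
    have : diagU (1 : Rˣ) = 1 := by
      ext1
      ext i j
      simp [diagU]
    rw [this, map_one]
  map_mul' u w := by rw [diagU_mul, map_mul]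

/-- `diag(u, 1)` as a matrix over `Fin 2` -/
def diag2 (u : Rˣ) : (Matrix (Fin 2) (Fin 2) R)ˣ where
  val := !![u.val, 0; 0, 1]
  inv := !![u⁻¹.val, 0; 0, 1]
  val_inv := by ext i j; fin_cases i <;> fin_cases j <;> simp [Matrix.mul_apply]
  inv_val := by ext i j; fin_cases i <;> fin_cases j <;> simp [Matrix.mul_apply]

theorem cl_diag2 (u : Rˣ) : S.cl (diag2 u) = S.clU u := by
  let e : Unit ⊕ Unit ≃ Fin 2 :=
    ⟨Sum.elim (fun _ => 0) (fun _ => 1), fun i => if i = 0 then Sum.inl () else Sum.inr (),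
      fun x => by rcases x with x | x <;> simp,
      fun i => by fin_cases i <;> simp⟩
  have : diag2 u = reidx e (dsum (diagU u) 1) := by
    ext1
    ext i j
    fin_cases i <;> fin_cases j <;> simp [diag2, reidx, dsum, diagU, e]
  rw [this, S.cl_reidx, S.cl_stab]
  rfl

theorem cl_entry_one_det (b d e : R) (α : (Matrix (Fin 2) (Fin 2) R)ˣ)
    (hα : α.val = !![b, 1; e, d]) (hdet : b * d - e = 1) : S.cl α = 1 := by
  have h10 : (1 : Fin 2) ≠ 0 := by decide
  have h01 : (0 : Fin 2) ≠ 1 := by decide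
  have : α = tv 1 0 h10 (d - 1) * tv 0 1 h01 1 * tv 1 0 h10 (b - 1) := by
    ext1
    rw [hα]
    have he : e = b * d - 1 := by rw [← hdet]; ring
    ext i j
    fin_cases i <;> fin_cases j <;>
      simp [tv, Matrix.mul_apply, Matrix.single, Fin.sum_univ_two, he, Matrix.one_apply]
    ring
  rw [this, map_mul, map_mul, S.cl_tv, S.cl_tv, S.cl_tv, mul_one, mul_one]

theorem sl2_torsion [Module.Free ℤ R] [Module.Finite ℤ R]
    (α : (Matrix (Fin 2) (Fin 2) R)ˣ) (hdet : α.val.det = 1)
    (ha : α.val 0 1 ∈ nonZeroDivisors R) : ∃ k : ℕ, 0 < k ∧ S.cl α ^ k = 1 := by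
  set a := α.val 0 1 with hadef
  set b := α.val 0 0 with hbdef
  set c := α.val 1 0 with hcdef
  set d := α.val 1 1 with hddef
  have hdet' : b * d - a * c = 1 := by rw [← hdet, Matrix.det_fin_two]
  have hαval : α.val = !![b, a; c, d] := by
    ext i j
    fin_cases i <;> fin_cases j <;> simp [hadef, hbdef, hcdef, hddef]
  let α' : (Matrix (Fin 2) (Fin 2) R)ˣ :=
    ⟨!![b, 1; a * c, d], !![d, -1; -(a * c), b], by
      ext i j
      fin_cases i <;> fin_cases j <;> simp [Matrix.mul_apply, Fin.sum_univ_two]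
      all_goals first | linear_combination hdet' | ring, by
      ext i j
      fin_cases i <;> fin_cases j <;> simp [Matrix.mul_apply, Fin.sum_univ_two]
      all_goals first | linear_combination hdet' | ring⟩
  have hα' : S.cl α' = 1 := S.cl_entry_one_det b d (a * c) α' rfl hdet'
  let T : Matrix (Fin 2) (Fin 2) R := !![1, 0; 0, a]
  have hT : T * α.val = α'.val * T := by
    rw [hαval]
    ext i j
    fin_cases i <;> fin_cases j <;> simp [T, α', Matrix.mul_apply, Fin.sum_univ_two, mul_comm]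
  have hTk : ∀ k : ℕ, T * (α ^ k).val = (α' ^ k).val * T := by
    intro k
    induction k with
    | zero => simp
    | succ k ih =>
      rw [pow_succ, pow_succ, Units.val_mul, Units.val_mul, ← mul_assoc, ih, mul_assoc, hT,
        mul_assoc]
  have hc : ∀ Z : Matrix (Fin 2) (Fin 2) R, Z * T = 0 → Z = 0 := by
    intro Z hZ
    have h0 : ∀ i, Z i 0 = 0 := by
      intro i
      have := congrFun (congrFun hZ i) 0
      simpa [T, Matrix.mul_apply, Fin.sum_univ_two] using this
    have h1 : ∀ i, Z i 1 = 0 := by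
      intro i
      have := congrFun (congrFun hZ i) 1
      simp [T, Matrix.mul_apply, Fin.sum_univ_two] at this
      rw [mem_nonZeroDivisors_iff_right] at ha
      exact ha _ this
    ext i j
    fin_cases j
    · exact h0 i
    · exact h1 i
  have hfin := finite_quot_of_nzd a ha
  let q := Ideal.Quotient.mk (Ideal.span {a})
  have hqa : q a = 0 := Ideal.Quotient.eq_zero_iff_mem.2 (Ideal.mem_span_singleton_self a)
  obtain ⟨k, hk0, hk⟩ : ∃ k : ℕ, 0 < k ∧ (q d) ^ k = 1 := by
    have hu : IsUnit (q d) := by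
      refine IsUnit.of_mul_eq_one (q b) ?_
      rw [← map_mul, mul_comm, show b * d = 1 + a * c by rw [← hdet']; ring, map_add, map_mul,
        hqa, zero_mul, add_zero, map_one]
    obtain ⟨w, hw⟩ := hu
    obtain ⟨k, hk0, hk⟩ := isOfFinOrder_iff_pow_eq_one.1 (isOfFinOrder_of_finite w)
    refine ⟨k, hk0, ?_⟩
    rw [← hw, ← Units.val_pow_eq_pow_val, hk, Units.val_one]
  have hpow : ∀ k : ℕ, q ((α ^ k).val 0 1) = 0 ∧ q ((α ^ k).val 1 1) = (q d) ^ k := by
    intro k
    induction k with
    | zero => simp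
    | succ k ih =>
      constructor
      · rw [pow_succ, Units.val_mul, Matrix.mul_apply, Fin.sum_univ_two, map_add, map_mul,
          map_mul, ih.1, ← hadef, hqa]
        simp
      · rw [pow_succ, Units.val_mul, Matrix.mul_apply, Fin.sum_univ_two, map_add, map_mul,
          map_mul, ih.2, ← hadef, hqa, ← hddef]
        simp [pow_succ]
  obtain ⟨e, he⟩ : ∃ e, e * a = (α ^ k).val 0 1 := by
    have := (hpow k).1
    rwa [Ideal.Quotient.eq_zero_iff_mem, Ideal.mem_span_singleton'] at this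
  obtain ⟨f, hf⟩ : ∃ f, f * a = (α ^ k).val 1 1 - 1 := by
    have : q ((α ^ k).val 1 1 - 1) = 0 := by
      rw [map_sub, (hpow k).2, hk, map_one, sub_self]
    rwa [Ideal.Quotient.eq_zero_iff_mem, Ideal.mem_span_singleton'] at this
  refine ⟨k, hk0, ?_⟩
  rw [← map_pow, S.cl_eq_of_intertwine T !![(α ^ k).val 0 0 - 1, e; (α ^ k).val 1 0, f] (α ^ k)
    (α' ^ k) ?_ (hTk k) hc, map_pow, hα', one_pow]
  ext i j
  fin_cases i <;> fin_cases j <;>
    simp only [T, Matrix.mul_apply, Fin.sum_univ_two, Matrix.add_apply] <;> simp [he, hf]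

/-- **`K₁(R)/[Rˣ]` is torsion** for a reduced commutative ring `R`, free of finite rank over `ℤ`. -/
theorem comm_torsion [IsReduced R] [Module.Free ℤ R] [Module.Finite ℤ R]
    (A : (Matrix ι ι R)ˣ) : ∃ k : ℕ, 0 < k ∧ ∃ u : Rˣ, S.cl A ^ k = S.clU u := by
  obtain ⟨B, hB⟩ := S.exists_two_rep _ ι rfl A
  let u : Rˣ := Matrix.GeneralLinearGroup.det B
  have hu : u.val = B.val.det := rfl
  let B₁ := diag2 u⁻¹ * B
  have hB1 : B₁.val.det = 1 := by
    simp only [B₁, Units.val_mul, Matrix.det_mul]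
    rw [← hu]
    simp [diag2, Matrix.det_fin_two]
  obtain ⟨t, ht0, ht⟩ := exists_int_comb_nzd (fun k => B₁.val 0 k)
    (fun k => if k = 0 then B₁.val 1 1 else - B₁.val 1 0)
    (by
      rw [← hB1, Matrix.det_fin_two, Fin.sum_univ_two]
      simp
      ring) 1
  obtain ⟨α, hα, hα'⟩ := S.exists_colop B₁ 1 (fun k => (t k : R)) (by simp [ht0])
  have hα01 : α.val 0 1 ∈ nonZeroDivisors R := by
    rw [hα', if_pos rfl]
    convert ht using 3
    exact mul_comm _ _
  have hαdet : α.val.det = 1 := by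
    rw [← hB1, Matrix.det_fin_two, Matrix.det_fin_two, hα', hα', hα', hα']
    simp [Fin.sum_univ_two, ht0]
    ring
  obtain ⟨k, hk0, hk⟩ := S.sl2_torsion α hαdet hα01
  refine ⟨k, hk0, u ^ k, ?_⟩
  rw [map_pow]
  have : S.cl A = S.clU u * S.cl α := by
    rw [hα, map_mul, cl_diag2, ← hB, map_inv]; simp
  rw [this, mul_pow, hk, mul_one]

end ClassSys

end Pool.Agent.SH
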