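import Pool.Agent.Lib_helper64.SH.K1

/-!
Row and column operations; over a ring which is additively free of rank `d`, every class is
represented by a `d × d` matrix.
-/

namespace Pool.Agent.SH

open Matrix

universe u v

namespace ClassSys

variable {R : Type u} [Ring R] {K : Type v} [CommGroup K] (S : ClassSys R K)
variable {ι κ : Type} [Fintype ι] [DecidableEq ι] [Fintype κ] [DecidableEq κ]

theorem exists_rowop (A : (Matrix ι ι R)ˣ) (i : ι) (r : ι → R) (h : r i = 0) :
    ∃ A' : (Matrix ι ι R)ˣ, S.cl A' = S.cl A ∧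
      ∀ a b, A'.val a b = A.val a b + if a = i then ∑ k, r k * A.val k b else 0 := by
  let X : Matrix ι Unit R := Matrix.of fun a _ => if a = i then 1 else 0
  let Y : Matrix Unit ι R := Matrix.of fun _ b => r b
  have hYX : Y * X = 0 := by
    ext a b
    simp [Matrix.mul_apply, X, Y, h]
  have hXYXY : (X * Y) * (X * Y) = 0 := by
    rw [Matrix.mul_assoc, ← Matrix.mul_assoc Y, hYX]; simp
  let U : (Matrix ι ι R)ˣ := ⟨1 + X * Y, 1 - X * Y, by
    rw [mul_sub, mul_one, add_mul, one_mul, hXYXY]; abel, by
    rw [mul_add, mul_one, sub_mul, one_mul, hXYXY]; abel⟩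
  have hU : S.cl U = 1 := S.cl_eq_one_of_mul_eq_zero X Y U rfl hYX
  refine ⟨U * A, by rw [map_mul, hU, one_mul], fun a b => ?_⟩
  have : (U * A).val = A.val + X * (Y * A.val) := by
    simp [U, add_mul, Matrix.mul_assoc]
  rw [this, Matrix.add_apply, Matrix.mul_apply]
  by_cases ha : a = i
  · simp [X, Y, Matrix.mul_apply, ha]
  · simp [X, ha]

theorem exists_colop (A : (Matrix ι ι R)ˣ) (j : ι) (c : ι → R) (h : c j = 0) :
    ∃ A' : (Matrix ι ι R)ˣ, S.cl A' = S.cl A ∧
      ∀ a b, A'.val a b = A.val a b + if b = j then ∑ k, A.val a k * c k else 0 := by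
  let X : Matrix ι Unit R := Matrix.of fun a _ => c a
  let Y : Matrix Unit ι R := Matrix.of fun _ b => if b = j then 1 else 0
  have hYX : Y * X = 0 := by
    ext a b
    simp [Matrix.mul_apply, X, Y, h]
  have hXYXY : (X * Y) * (X * Y) = 0 := by
    rw [Matrix.mul_assoc, ← Matrix.mul_assoc Y, hYX]; simp
  let U : (Matrix ι ι R)ˣ := ⟨1 + X * Y, 1 - X * Y, by
    rw [mul_sub, mul_one, add_mul, one_mul, hXYXY]; abel, by
    rw [mul_add, mul_one, sub_mul, one_mul, hXYXY]; abel⟩
  have hU : S.cl U = 1 := S.cl_eq_one_of_mul_eq_zero X Y U rfl hYX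
  refine ⟨A * U, by rw [map_mul, hU, mul_one], fun a b => ?_⟩
  have : (A * U).val = A.val + (A.val * X) * Y := by
    simp [U, mul_add, Matrix.mul_assoc]
  rw [this, Matrix.add_apply, Matrix.mul_apply]
  by_cases hb : b = j
  · simp [X, Y, Matrix.mul_apply, hb]
  · simp [Y, hb]

/-- if some entry is `1` the matrix can be made smaller -/
theorem exists_smaller (A : (Matrix ι ι R)ˣ) (i j : ι) (h : A.val i j = 1) :
    ∃ B : (Matrix {x : ι // x ≠ i} {x : ι // x ≠ i} R)ˣ, S.cl B = S.cl A := by
  classical
  -- step 1: entry (i,i) equal to 1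
  obtain ⟨A', hA', h'⟩ : ∃ A' : (Matrix ι ι R)ˣ, S.cl A' = S.cl A ∧ A'.val i i = 1 := by
    by_cases hij : j = i
    · subst hij; exact ⟨A, rfl, h⟩
    · obtain ⟨A', h1, h2⟩ := S.exists_colop A i (fun k => if k = j then 1 - A.val i i else 0)
        (by simp [Ne.symm hij])
      refine ⟨A', h1, ?_⟩
      rw [h2]
      simp [h]
  -- step 2: reindex
  let e : ι ≃ Unit ⊕ {x : ι // x ≠ i} :=
    ⟨fun x => if hx : x = i then Sum.inl () else Sum.inr ⟨x, hx⟩,
     fun y => Sum.elim (fun _ => i) (fun z => z.1) y,
     fun x => by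
       by_cases hx : x = i
       · simp [hx]
       · simp [hx],
     fun y => by
       rcases y with y | ⟨y, hy⟩
       · simp
       · simp [hy]⟩
  have he1 : e.symm (Sum.inl ()) = i := rfl
  have he2 : ∀ z, e.symm (Sum.inr z) = z.1 := fun z => rfl
  let P : (Matrix (Unit ⊕ {x : ι // x ≠ i}) (Unit ⊕ {x : ι // x ≠ i}) R)ˣ := reidx e A'
  have hP : S.cl P = S.cl A := by rw [S.cl_reidx, hA']
  let X : Matrix Unit {x : ι // x ≠ i} R := Matrix.of fun _ y => A'.val i y
  let Y : Matrix {x : ι // x ≠ i} Unit R := Matrix.of fun x _ => A'.val x i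
  let D : Matrix {x : ι // x ≠ i} {x : ι // x ≠ i} R := Matrix.of fun x y => A'.val x y
  have hPval : P.val = fromBlocks 1 X Y D := by
    ext a b
    rcases a with a | a <;> rcases b with b | b
    · simp [P, reidx, he1, h', Matrix.one_apply]
    · simp [P, reidx, he1, he2, X]
    · simp [P, reidx, he1, he2, Y]
    · simp [P, reidx, he2, D]
  let Q := lb (-Y) * P * ub (-X)
  have hQ : S.cl Q = S.cl A := by
    simp only [Q, map_mul, cl_lb, cl_ub, one_mul, mul_one, hP]
  have hQval : Q.val = fromBlocks 1 0 0 (D - Y * X) := by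
    simp only [Q, Units.val_mul, hPval, lb, ub, fromBlocks_multiply]
    simp [sub_eq_neg_add]
  have e1 : Q.val * Q⁻¹.val = 1 := Q.mul_inv
  have e2 : Q⁻¹.val * Q.val = 1 := Q.inv_mul
  rw [hQval, ← fromBlocks_toBlocks Q⁻¹.val, fromBlocks_multiply, ← fromBlocks_one,
    fromBlocks_inj] at e1 e2
  let B : (Matrix {x : ι // x ≠ i} {x : ι // x ≠ i} R)ˣ :=
    ⟨D - Y * X, Q⁻¹.val.toBlocks₂₂, by simpa using e1.2.2.2, by simpa using e2.2.2.2⟩
  refine ⟨B, ?_⟩
  rw [← hQ, ← S.cl_stab' (ι := Unit) B]
  congr 1
  ext1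
  rw [hQval]
  rfl

/-- if some entry of a row of the matrix vanishes in a column, we can produce the entry `1` -/
theorem exists_entry_one (A : (Matrix ι ι R)ˣ) (i j : ι) (h : A.val i j = 0) :
    ∃ A' : (Matrix ι ι R)ˣ, S.cl A' = S.cl A ∧ A'.val i j = 1 := by
  obtain ⟨A', h1, h2⟩ := S.exists_rowop A i (fun k => if k = i then 0 else A⁻¹.val j k) (by simp)
  refine ⟨A', h1, ?_⟩
  rw [h2, h]
  have : ∑ k, A⁻¹.val j k * A.val k j = 1 := by
    rw [← Matrix.mul_apply, Units.inv_mul]; simp
  simp only [if_true, zero_add]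
  rw [← this]
  refine Finset.sum_congr rfl fun k _ => ?_
  by_cases hk : k = i
  · subst hk; simp [h]
  · simp [hk]

/-- Euclid's algorithm on an integral dependency between the entries of a column -/
theorem exists_entry_zero [Module.IsTorsionFree ℤ R] (j : ι) : ∀ (n : ℕ) (A : (Matrix ι ι R)ˣ) (c : ι → ℤ), 
    c ≠ 0 → ∑ i, (c i).natAbs ≤ n → ∑ i, (c i) • A.val i j = 0 → 
    ∃ A' : (Matrix ι ι R)ˣ, S.cl A' = S.cl A ∧ ∃ i, A'.val i j = 0 := by
  intro n
  induction n with
  | zero =>
    intro A c hc hn _
    exfalso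
    apply hc
    funext i
    have : (c i).natAbs ≤ 0 := le_trans
      (Finset.single_le_sum (f := fun i => (c i).natAbs) (fun _ _ => Nat.zero_le _)
        (Finset.mem_univ i)) hn
    simpa using this
  | succ n ih =>
    intro A c hc hn hA
    obtain ⟨i, hi⟩ : ∃ i, c i ≠ 0 := by
      by_contra hcon
      push Not at hcon
      exact hc (funext hcon)
    by_cases hone : ∀ k, k ≠ i → c k = 0
    · refine ⟨A, rfl, i, ?_⟩
      rw [Finset.sum_eq_single i (fun k _ hk => by rw [hone k hk, zero_smul]) (by simp)] at hA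
      exact (smul_eq_zero.1 hA).resolve_left hi
    · push Not at hone
      obtain ⟨k, hki, hk⟩ := hone
      -- wlog
      have key : ∀ (i k : ι), k ≠ i → c i ≠ 0 → c k ≠ 0 → (c i).natAbs ≤ (c k).natAbs →
          ∃ A' : (Matrix ι ι R)ˣ, S.cl A' = S.cl A ∧ ∃ i, A'.val i j = 0 := by
        intro i k hki hi hk hle
        obtain ⟨q, hq⟩ : ∃ q : ℤ, (c k - q * c i).natAbs < (c k).natAbs := by
          rcases lt_or_gt_of_ne hi with h1 | h1 <;> rcases lt_or_gt_of_ne hk with h2 | h2
          · exact ⟨1, by omega⟩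
          · exact ⟨-1, by omega⟩
          · exact ⟨-1, by omega⟩
          · exact ⟨1, by omega⟩
        obtain ⟨A₁, hA1, hA1'⟩ := S.exists_rowop A i (fun l => if l = k then (q : R) else 0)
          (by simp [Ne.symm hki])
        let c' : ι → ℤ := Function.update c k (c k - q * c i)
        have hc' : c' ≠ 0 := by
          intro h0
          have := congrFun h0 i
          simp [c', Function.update_of_ne (Ne.symm hki)] at this
          exact hi this
        have hsum : ∑ l, (c' l).natAbs ≤ n := by
          have h3 : ∑ l, (c' l).natAbs < ∑ l, (c l).natAbs := by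
            apply Finset.sum_lt_sum
            · intro l _
              by_cases hl : l = k
              · subst hl; simp only [c', Function.update_self]; omega
              · simp [c', Function.update_of_ne hl]
            · exact ⟨k, Finset.mem_univ _, by simpa [c'] using hq⟩
          omega
        have hrel : ∑ l, (c' l) • A₁.val l j = 0 := by
          have e1 : ∀ l, (c' l) • A₁.val l j = (c l) • A.val l j +
              ((if l = i then (c i * q) • A.val k j else 0) -
                (if l = k then (q * c i) • A.val k j else 0)) := by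
            intro l
            by_cases hl : l = i
            · subst hl
              rw [hA1']
              simp [c', Function.update_of_ne (Ne.symm hki), Ne.symm hki, smul_add, mul_assoc]
            · by_cases hl2 : l = k
              · subst hl2
                rw [hA1']
                simp [c', hl, sub_mul, sub_eq_add_neg, add_mul]
              · rw [hA1']
                simp [c', Function.update_of_ne hl2, hl, hl2]
          rw [Finset.sum_congr rfl fun l _ => e1 l, Finset.sum_add_distrib, hA,
            Finset.sum_sub_distrib]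
          simp [mul_comm]
        obtain ⟨A₂, hA2, h4⟩ := ih A₁ c' hc' hsum hrel
        exact ⟨A₂, hA2.trans hA1, h4⟩
      rcases le_total (c i).natAbs (c k).natAbs with h | h
      · exact key i k hki hi hk h
      · exact key k i (Ne.symm hki) hk hi h

/-- if the additive group of `R` is free of rank `d` then every class is represented by a
`d × d` matrix -/
theorem exists_fin_rep [Module.Free ℤ R] [Module.Finite ℤ R] (d : ℕ)
    (hd : Module.finrank ℤ R ≤ d) : ∀ (n : ℕ) (ι : Type) [Fintype ι] [DecidableEq ι],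
    Fintype.card ι = n → ∀ A : (Matrix ι ι R)ˣ,
    ∃ B : (Matrix (Fin d) (Fin d) R)ˣ, S.cl B = S.cl A := by
  intro n
  induction n with
  | zero =>
    intro ι _ _ hι A
    have : A = 1 := by
      have := Fintype.card_eq_zero_iff.1 hι
      ext1
      ext i
      exact isEmptyElim i
    exact ⟨1, by rw [this, map_one, map_one]⟩
  | succ n ih =>
    intro ι _ _ hι A
    by_cases hn : n + 1 ≤ d
    · have hcard : Fintype.card (ι ⊕ Fin (d - (n+1))) = Fintype.card (Fin d) := by
        simp [hι]; omega
      refine ⟨reidx (Fintype.equivOfCardEq hcard) (dsum A 1), ?_⟩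
      rw [S.cl_reidx, S.cl_stab]
    · push Not at hn
      have : Nonempty ι := Fintype.card_pos_iff.1 (by omega)
      let j : ι := Classical.arbitrary ι
      obtain ⟨c, hc, hA⟩ : ∃ c : ι → ℤ, c ≠ 0 ∧ ∑ i, (c i) • A.val i j = 0 := by
        by_contra hcon
        have hli : LinearIndependent ℤ (fun i => A.val i j) := by
          rw [Fintype.linearIndependent_iff]
          intro g hg i
          by_contra hi
          exact hcon ⟨g, fun h0 => hi (by rw [h0]; rfl), hg⟩
        have := hli.fintype_card_le_finrank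
        omega
      obtain ⟨A₁, h1, i, hi⟩ := S.exists_entry_zero j _ A c hc le_rfl hA
      obtain ⟨A₂, h2, h3⟩ := S.exists_entry_one A₁ i j hi
      obtain ⟨B, hB⟩ := S.exists_smaller A₂ i j h3
      obtain ⟨C, hC⟩ := ih {x : ι // x ≠ i} (by
        rw [Fintype.card_subtype_compl]; simp [hι]) B
      exact ⟨C, by rw [hC, hB, h2, h1]⟩

end ClassSys

end Pool.Agent.SH
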